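import Pool.Agent.U93.T.Rel

/-!
# Alternating groups: functions which are nonnegative on the solvable subgroups
-/

set_option autoImplicit false
set_option linter.unusedSectionVars false

namespace Pool.Agent.U93.T

open Equiv Equiv.Perm Pool.Agent.U93.S Pool.Agent.U93.L Pool.Agent.H302R2 Pool.Agent.H302R3
  Pool.Agent.U93.Q Pool.Agent.W295.Cl

variable {α : Type} [Fintype α] [DecidableEq α] {θ : alternatingGroup α → ℂ}

/-- additivity -/
lemma add_pt (hθ : IsSolHeilbronn θ) {r : ℕ} (hr : θ 1 = r)
    (hrk : Small (Fintype.card α) 2 r) (x y : alternatingGroup α)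
    (hd : Disjoint (x : Perm α) y) : θ (x * y) = θ x + θ y - θ 1 := by
  classical
  have hxy : x * y = y * x := Subtype.ext hd.commute.eq
  have hcomm : ∀ a ∈ ({x, y} : Set (alternatingGroup α)), ∀ b ∈ ({x, y} : Set (alternatingGroup α)),
      a * b = b * a := by
    rintro a (rfl | rfl) b (rfl | rfl)
    · rfl
    · exact hxy
    · exact hxy.symm
    · rfl
  let C : Subgroup (alternatingGroup α) := Subgroup.closure {x, y}
  let _ : CommGroup C := Subgroup.closureCommGroupOfComm hcomm
  let x' : C := ⟨x, Subgroup.subset_closure (Set.mem_insert x _)⟩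
  let y' : C := ⟨y, Subgroup.subset_closure (Set.mem_insert_of_mem _ rfl)⟩
  have : Fintype C := Fintype.ofFinite C
  have hC : IsHeilbronn (fun c : C => θ (C.subtype c)) :=
    hθ.comp_sol (sol_of_comm mul_comm) C.subtype
  obtain ⟨ι, _, ψ, m, hd'⟩ := hC.comm_decomp (fun a b => mul_comm a b)
  have hz : ∀ i, ψ i x' ≠ 1 → ψ i y' ≠ 1 → m i = 0 := by
    intro i h1 h2
    have h3 := level_sol hθ hr hrk C C.subtype ![x', y'] (by
      intro a b hab
      fin_cases a <;> fin_cases b
      · exact absurd rfl hab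
      · exact hd
      · exact hd.symm
      · exact absurd rfl hab) (ψ i) (by
      intro a
      fin_cases a
      · exact h1
      · exact h2)
    rw [finsum_eq_sum_of_fintype] at h3
    have h4 : ∑ c : C, θ (C.subtype c) * (((ψ i c)⁻¹ : ℂˣ) : ℂ)
        = ∑ j, (m j : ℂ) * (if ψ j = ψ i then (Nat.card C : ℂ) else 0) := by
      calc ∑ c : C, θ (C.subtype c) * (((ψ i c)⁻¹ : ℂˣ) : ℂ)
          = ∑ c : C, ∑ j, (m j : ℂ) * ((((ψ j * (ψ i)⁻¹) c : ℂˣ)) : ℂ) := by
            refine Finset.sum_congr rfl fun c _ => ?_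
            have h5 : θ (C.subtype c) = ∑ i, (m i : ℂ) * ((ψ i c : ℂˣ) : ℂ) := hd' c
            rw [h5, Finset.sum_mul]
            refine Finset.sum_congr rfl fun j _ => ?_
            rw [MonoidHom.mul_apply, MonoidHom.inv_apply, Units.val_mul, mul_assoc]
        _ = ∑ j, (m j : ℂ) * ∑ c : C, ((((ψ j * (ψ i)⁻¹) c : ℂˣ)) : ℂ) := by
            rw [Finset.sum_comm]
            refine Finset.sum_congr rfl fun j _ => ?_
            rw [Finset.mul_sum]
        _ = _ := by
            refine Finset.sum_congr rfl fun j _ => ?_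
            congr 1
            by_cases h : ψ j = ψ i
            · rw [if_pos h, h]
              simp [Nat.card_eq_fintype_card]
            · rw [if_neg h]
              have h2 := finsum_char_eq_zero (ψ j * (ψ i)⁻¹) (fun h3 => h (by
                refine MonoidHom.ext fun x => ?_
                have h4 := DFunLike.congr_fun h3 x
                rw [MonoidHom.mul_apply, MonoidHom.inv_apply, MonoidHom.one_apply,
                  mul_inv_eq_one] at h4
                exact h4))
              rwa [finsum_eq_sum_of_fintype] at h2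
    rw [h4] at h3
    have h5 : ∑ j, (m j : ℂ) * (if ψ j = ψ i then (Nat.card C : ℂ) else 0)
        = ((∑ j, m j * (if ψ j = ψ i then Nat.card C else 0) : ℕ) : ℂ) := by
      push_cast
      refine Finset.sum_congr rfl fun j _ => ?_
      split_ifs <;> simp
    rw [h5] at h3
    have h6 : ∑ j, m j * (if ψ j = ψ i then Nat.card C else 0) = 0 := by exact_mod_cast h3
    have h7 := Finset.sum_eq_zero_iff.mp h6 i (Finset.mem_univ i)
    rw [if_pos rfl] at h7
    rcases Nat.mul_eq_zero.mp h7 with h8 | h8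
    · exact h8
    · exact absurd h8 Nat.card_pos.ne'
  have e1 : θ (x * y) = ∑ i, (m i : ℂ) * ((ψ i (x' * y') : ℂˣ) : ℂ) := hd' (x' * y')
  have e2 : θ x = ∑ i, (m i : ℂ) * ((ψ i x' : ℂˣ) : ℂ) := hd' x'
  have e3 : θ y = ∑ i, (m i : ℂ) * ((ψ i y' : ℂˣ) : ℂ) := hd' y'
  have e4 : θ 1 = ∑ i, (m i : ℂ) * ((ψ i 1 : ℂˣ) : ℂ) := hd' 1
  rw [e1, e2, e3, e4, ← sub_eq_zero, ← Finset.sum_add_distrib, ← Finset.sum_sub_distrib,
    ← Finset.sum_sub_distrib]
  refine Finset.sum_eq_zero fun i _ => ?_
  rw [map_mul, map_one, Units.val_mul, Units.val_one]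
  by_cases h1 : ψ i x' = 1
  · rw [h1, Units.val_one]; ring
  · by_cases h2 : ψ i y' = 1
    · rw [h2, Units.val_one]; ring
    · rw [hz i h1 h2]; simp

lemma ext0_even (hθ : IsSolHeilbronn θ) {h : Perm α} (hh : h ∈ alternatingGroup α) (g : Perm α) :
    ext0 (alternatingGroup α) θ (h * g * h⁻¹) = ext0 (alternatingGroup α) θ g := by
  by_cases hg : g ∈ alternatingGroup α
  · have h1 : h * g * h⁻¹ ∈ alternatingGroup α := mul_mem (mul_mem hh hg) (inv_mem hh)
    rw [ext0_mem hg, ext0_mem h1]
    exact hθ.conj ⟨g, hg⟩ ⟨h, hh⟩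
  · have h1 : h * g * h⁻¹ ∉ alternatingGroup α := by
      intro h1
      apply hg
      have h2 := mul_mem (mul_mem (inv_mem hh) h1) hh
      have h3 : h⁻¹ * (h * g * h⁻¹) * h = g := by group
      rwa [h3] at h2
    rw [ext0_not hg, ext0_not h1]

lemma inv_of_cent (hθ : IsSolHeilbronn θ) {g : Perm α}
    (hc : ¬ Subgroup.centralizer {g} ≤ alternatingGroup α) : Inv θ g := by
  intro h
  by_cases hh : h ∈ alternatingGroup α
  · exact ext0_even hθ hh g
  · rw [SetLike.not_le_iff_exists] at hc
    obtain ⟨o, ho, ho'⟩ := hc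
    rw [Subgroup.mem_centralizer_singleton_iff] at ho
    have h1 : h * g * h⁻¹ = (h * o) * g * (h * o)⁻¹ := by
      rw [mul_inv_rev]
      have h2 : o * g * o⁻¹ = g := by rw [ho, mul_inv_cancel_right]
      calc h * g * h⁻¹ = h * (o * g * o⁻¹) * h⁻¹ := by rw [h2]
        _ = _ := by group
    rw [h1]
    exact ext0_even hθ (odd_mul hh ho') g

lemma inv_mul (hθ : IsSolHeilbronn θ) {r : ℕ} (hr : θ 1 = r)
    (hrk : Small (Fintype.card α) 2 r) {x y : Perm α} (hx : x ∈ alternatingGroup α)
    (hy : y ∈ alternatingGroup α) (hd : Disjoint x y) (h1 : Inv θ x) (h2 : Inv θ y) :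
    Inv θ (x * y) := by
  intro h
  have hn : ∀ z ∈ alternatingGroup α, h * z * h⁻¹ ∈ alternatingGroup α := fun z hz =>
    (inferInstance : (alternatingGroup α).Normal).conj_mem z hz h
  have e1 : h * (x * y) * h⁻¹ = (h * x * h⁻¹) * (h * y * h⁻¹) := by group
  have e2 := add_pt hθ hr hrk ⟨x, hx⟩ ⟨y, hy⟩ hd
  have e3 := add_pt hθ hr hrk ⟨_, hn x hx⟩ ⟨_, hn y hy⟩ (hd.conj h)
  rw [e1, ext0_mem (mul_mem (hn x hx) (hn y hy)), ext0_mem (mul_mem hx hy)]
  have e4 : (⟨(h * x * h⁻¹) * (h * y * h⁻¹), mul_mem (hn x hx) (hn y hy)⟩ : alternatingGroup α)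
    = ⟨_, hn x hx⟩ * ⟨_, hn y hy⟩ := rfl
  have e5 : (⟨x * y, mul_mem hx hy⟩ : alternatingGroup α) = ⟨x, hx⟩ * ⟨y, hy⟩ := rfl
  rw [e4, e5, e2, e3]
  have e6 := h1 h
  have e7 := h2 h
  rw [ext0_mem (hn x hx), ext0_mem hx] at e6
  rw [ext0_mem (hn y hy), ext0_mem hy] at e7
  rw [e6, e7]

lemma av_heil (hθ : IsSolHeilbronn θ) : IsSolHeilbronn (av θ) := by
  rw [av_eq]
  exact ind_sol _ (alternatingGroup α).subtype_injective hθ

lemma av_nilZ {k : ℕ} (hθ : IsSolHeilbronn θ) {r : ℕ} (hr : θ 1 = r)
    (hrk : Small (Fintype.card α) k r) : NilZ (Fin k) (av θ) := by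
  have h1 := nilZ_sol (alternatingGroup α) le_rfl hθ hr hrk
  have h2 : NilZ (Fin k) (fun g => ∑ t : Perm α, ext0 (alternatingGroup α) θ (t⁻¹ * g * t)) := by
    refine NilZ.sum Finset.univ (fun t _ => ?_)
    have h3 := h1.conj t⁻¹
    simpa only [inv_inv] using h3
  intro P _ _ _ φ Λ p a b c d
  have h3 := h2 P φ Λ p a b c d
  have : Fintype P := Fintype.ofFinite P
  rw [finsum_eq_sum_of_fintype] at h3 ⊢
  have h4 : ∀ x : P, av θ (φ x) * (((Λ x)⁻¹ : ℂˣ) : ℂ)
      = (Nat.card (alternatingGroup α) : ℂ)⁻¹ *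
        ((∑ t : Perm α, ext0 (alternatingGroup α) θ (t⁻¹ * φ x * t))
          * (((Λ x)⁻¹ : ℂˣ) : ℂ)) := by
    intro x
    rw [av, mul_assoc]
  rw [Finset.sum_congr rfl (fun x _ => h4 x), ← Finset.mul_sum, h3, mul_zero]

/-- the values at cycles of odd composite length -/
lemma inv_cycle (hθ : IsSolHeilbronn θ) {r : ℕ} (hr : θ 1 = r)
    (hrk : Small (Fintype.card α) 2 r) {q m : ℕ} (hq : q.Prime) (hq2 : q ≠ 2)
    (hmo : Odd m) (hm3 : 3 ≤ m) {g : Perm α} (hg : g.cycleType = {q * m}) :
    ext0 (alternatingGroup α) θ g = fF (av θ) (Multiset.replicate q m) / 2 := by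
  classical
  have hm : 2 ≤ m := by omega
  have : NeZero m := ⟨by omega⟩
  have : NeZero q := ⟨hq.ne_zero⟩
  have hqo := hq.odd_of_ne_two hq2
  have hq3 : 3 ≤ q := by
    have := hq.two_le
    omega
  have hle : q * m ≤ Fintype.card α := by
    have h1 := sum_cycleType g
    rw [hg, Multiset.sum_singleton] at h1
    rw [h1]
    exact Finset.card_le_univ _
  have hnt : Nontrivial α := by
    rw [← Fintype.one_lt_card_iff_nontrivial]
    nlinarith
  let β := Fin (Fintype.card α - q * m)
  let B := (ZMod m × ZMod q) ⊕ β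
  have hcB : Fintype.card B = Fintype.card α := by
    simp only [B, β, Fintype.card_sum, Fintype.card_prod, ZMod.card, Fintype.card_fin]
    rw [mul_comm m q]
    omega
  let c₀ : ZMod m → Multiplicative (ZMod q) := Pi.mulSingle 0 (Multiplicative.ofAdd 1)
  let w : Perm B := Perm.sumCongr (nuP m q c₀ * tsh m q) 1
  have hw : w.cycleType = {q * m} := by
    rw [cycleType_sumCongr, w_cycleType hm c₀ sum_single, cycleType_one, add_zero]
  obtain ⟨e, he⟩ : ∃ e : B ≃ α, e.permCongr w = g := by
    let e₀ : B ≃ α := Fintype.equivOfCardEq hcB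
    have h1 : (e₀.permCongr w).cycleType = g.cycleType := by
      rw [cycleType_permCongr, hw, hg]
    obtain ⟨k, hk⟩ := isConj_iff.mp (isConj_iff_cycleType_eq.mpr h1)
    refine ⟨e₀.trans k, ?_⟩
    rw [← hk]
    ext x
    simp [Equiv.permCongr_apply, Perm.mul_apply]
  have hsn : ∀ c, sign (nuP m q c) = 1 := by
    intro c
    rw [sign_of_cycleType, nuP_cycleType hq, Multiset.sum_replicate, Multiset.card_replicate,
      smul_eq_mul]
    have h2 : Even ((Finset.univ.filter fun i => c i ≠ 1).card * q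
        + (Finset.univ.filter fun i => c i ≠ 1).card) := by
      rw [← Nat.mul_succ]
      exact (hqo.add_one).mul_left _
    exact h2.neg_one_pow
  have hst : sign (tsh m q) = 1 := by
    rw [sign_of_cycleType, tsh_cycleType hm, Multiset.sum_replicate, Multiset.card_replicate,
      smul_eq_mul]
    have h2 : Even (q * m + q) := by
      rw [← Nat.mul_succ]
      exact (hmo.add_one).mul_left _
    exact h2.neg_one_pow
  have hev : ∀ y : Perm (ZMod m × ZMod q), sign y = 1 →
      e.permCongrHom (Perm.sumCongr y (1 : Perm β)) ∈ alternatingGroup α := by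
    intro y hy
    rw [mem_alternatingGroup]
    change sign (e.permCongr (Perm.sumCongr y 1)) = 1
    rw [sign_permCongr', sign_sumCongr, hy, Perm.sign_one, mul_one]
  let ν₀ : (ZMod m → Multiplicative (ZMod q)) →* Perm α :=
    e.permCongrHom.toMonoidHom.comp ((sumCongrHom _ _).comp (MonoidHom.prod (nuP m q) 1))
  have hν₀ : ∀ c, ν₀ c = e.permCongrHom (Perm.sumCongr (nuP m q c) (1 : Perm β)) := fun c => rfl
  let ν : (ZMod m → Multiplicative (ZMod q)) →* alternatingGroup α :=
    ν₀.codRestrict _ (fun c => hev _ (hsn c))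
  have hν : ∀ c, ((ν c : alternatingGroup α) : Perm α)
    = e.permCongrHom (Perm.sumCongr (nuP m q c) (1 : Perm β)) := fun c => rfl
  have hinj : Function.Injective ν := by
    intro c d h
    apply nuP_injective
    have h1 : e.permCongrHom (Perm.sumCongr (nuP m q c) (1 : Perm β))
        = e.permCongrHom (Perm.sumCongr (nuP m q d) (1 : Perm β)) := congrArg Subtype.val h
    have h2 : ((nuP m q c, (1 : Perm β)) : Perm (ZMod m × ZMod q) × Perm β)
        = (nuP m q d, 1) := sumCongrHom_injective (e.permCongrHom.injective h1)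
    exact (Prod.ext_iff.mp h2).1
  let x : alternatingGroup α := ⟨e.permCongrHom (Perm.sumCongr (tsh m q) (1 : Perm β)), hev _ hst⟩
  have hx : ∀ c, x * ν c * x⁻¹ = ν (shf c) := by
    intro c
    apply Subtype.ext
    change e.permCongrHom (Perm.sumCongr (tsh m q) (1 : Perm β))
      * e.permCongrHom (Perm.sumCongr (nuP m q c) (1 : Perm β))
      * (e.permCongrHom (Perm.sumCongr (tsh m q) (1 : Perm β)))⁻¹
      = e.permCongrHom (Perm.sumCongr (nuP m q (shf c)) (1 : Perm β))
    rw [← map_inv, ← map_mul, ← map_mul, sumCongr_inv, Perm.sumCongr_mul, Perm.sumCongr_mul,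
      tsh_conj, mul_one, mul_inv_cancel]
  -- the values at the elements with nonsplit classes
  have hval : ∀ y : alternatingGroup α, ¬ Subgroup.centralizer {(y : Perm α)} ≤ alternatingGroup α →
      θ y = fF (av θ) (y : Perm α).cycleType / 2 := by
    intro y hy
    have h1 := av_inv (inv_of_cent hθ hy)
    rw [ext0_mem y.2] at h1
    rw [fF_eq (av_heil hθ).conj, h1]
    change θ y = 2 * θ y / 2
    ring
  have hf := rel_four_nil (av_heil hθ).conj (av_nilZ hθ hr hrk)
  have hνct : ∀ c, ((ν c : alternatingGroup α) : Perm α).cycleType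
      = Multiset.replicate (Finset.univ.filter fun i => c i ≠ 1).card q := by
    intro c
    rw [hν]
    change (e.permCongr (Perm.sumCongr (nuP m q c) (1 : Perm β))).cycleType = _
    rw [cycleType_permCongr, cycleType_sumCongr, cycleType_one, add_zero, nuP_cycleType hq]
  have hxct : (x : Perm α).cycleType = Multiset.replicate q m := by
    change (e.permCongr (Perm.sumCongr (tsh m q) (1 : Perm β))).cycleType = _
    rw [cycleType_permCongr, cycleType_sumCongr, cycleType_one, add_zero, tsh_cycleType hm]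
  have key := Pool.Agent.U143.RG.coset_const hθ ν hinj (x := x) (fun c => ⟨_, hx c⟩)
    (Ω := ZMod m) (fun i => (Pi.evalMonoidHom (fun _ => Multiplicative (ZMod q)) i).ker)
    (fun i c => ((fF (av θ) 0 - fF (av θ) {q}) / 2) * (if c i ≠ 1 then 1 else 0))
    (fF (av θ) 0 / 2)
    (by
      intro i b hb c
      have h1 : b i = 1 := hb
      simp only [Pi.mul_apply, h1, mul_one])
    (by
      intro c
      have hkm : (Finset.univ.filter fun i => c i ≠ 1).card ≤ m := by
        refine (Finset.card_le_univ _).trans ?_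
        rw [ZMod.card]
      rw [hval (ν c), hνct, ← Finset.mul_sum, Finset.sum_boole]
      · have h1 := rel_lin hf (u := {q}) (Ok.sing hq.two_le) (sg_odd_rep hqo)
          (Finset.univ.filter fun i => c i ≠ 1).card (by
            rw [Multiset.sum_singleton]
            have h3 := Nat.mul_le_mul_right q hkm
            rw [mul_comm m q] at h3
            omega)
        rw [Multiset.nsmul_singleton] at h1
        rw [h1]
        ring
      · intro hcent
        have h1 := card_le_of_centralizer_le_alternating hcent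
        have h2 := count_le_one_of_centralizer_le_alternating hcent q
        rw [hνct, Multiset.count_replicate_self] at h2
        rw [hνct, Multiset.sum_replicate, smul_eq_mul] at h1
        nlinarith)
    (by
      intro l hl hinv i
      obtain ⟨b, hb1, hb2⟩ := char_gen hm hl (fun c => hinv c _ (hx c)) i
      exact ⟨b, hb1, hb2⟩) c₀
  have hgm : g = ((ν c₀ * x : alternatingGroup α) : Perm α) := by
    rw [Subgroup.coe_mul, hν]
    change g = e.permCongrHom (Perm.sumCongr (nuP m q c₀) (1 : Perm β))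
      * e.permCongrHom (Perm.sumCongr (tsh m q) (1 : Perm β))
    rw [← map_mul, Perm.sumCongr_mul, one_mul, ← he]
    rfl
  rw [hgm, ext0_mem (ν c₀ * x).2]
  have h1 : (⟨((ν c₀ * x : alternatingGroup α) : Perm α), (ν c₀ * x).2⟩ : alternatingGroup α)
    = ν c₀ * x := rfl
  rw [h1, key, hval x, hxct]
  intro hcent
  have h2 := count_le_one_of_centralizer_le_alternating hcent m
  rw [hxct, Multiset.count_replicate_self] at h2
  omega

/-- the values at the even permutations without exceptional cycles are invariant -/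
lemma inv_all (hθ : IsSolHeilbronn θ) {r : ℕ} (hr : θ 1 = r)
    (hrk : Small (Fintype.card α) 2 r) (h12 : 12 ≤ Fintype.card α) {g : Perm α}
    (hg : g ∈ alternatingGroup α) (hexc : ∀ x ∈ g.cycleType, ¬ Exc (Fintype.card α) x) :
    Inv θ g := by
  classical
  by_cases hc : Subgroup.centralizer {g} ≤ alternatingGroup α
  swap
  · exact inv_of_cent hθ hc
  have h1 := card_le_of_centralizer_le_alternating hc
  have hodd := OnCycleFactors.odd_of_centralizer_le_alternatingGroup hc
  obtain ⟨l, hl⟩ : ∃ l, l ∈ g.cycleType := by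
    by_contra hcon
    push Not at hcon
    have h2 : g.cycleType = 0 := Multiset.eq_zero_of_forall_notMem hcon
    rw [h2, Multiset.sum_zero] at h1
    omega
  have hlo := hodd l hl
  obtain ⟨c, τ, hgc, hd, hcc, hcl⟩ := mem_cycleType_iff.mp hl
  have hsum : c.support.card + τ.support.card ≤ Fintype.card α := by
    rw [← hd.card_support_mul]
    exact Finset.card_le_univ _
  have hl2 : 2 ≤ l := two_le_of_mem_cycleType hl
  have hsc : sign c = 1 := by
    rw [hcc.sign, hcl, hlo.neg_one_pow, neg_neg]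
  have hsg : sign g = 1 := mem_alternatingGroup.mp hg
  have hst : sign τ = 1 := by
    rw [hgc, map_mul, hsc, one_mul] at hsg
    exact hsg
  by_cases hτ : τ = 1
  · rw [hτ, mul_one] at hgc
    have hct : g.cycleType = {l} := by rw [hgc, hcc.cycleType, hcl]
    rw [hct, Multiset.sum_singleton] at h1
    have hnp : ¬ l.Prime := fun hp => hexc l hl (Or.inl ⟨hp, by omega⟩)
    obtain ⟨m, hm⟩ := Nat.minFac_dvd l
    have hq : l.minFac.Prime := Nat.minFac_prime (by omega)
    have hmo : Odd m := by
      rw [hm] at hlo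
      exact (Nat.odd_mul.mp hlo).2
    have hqo : Odd l.minFac := by
      rw [hm] at hlo
      exact (Nat.odd_mul.mp hlo).1
    have hq2 : l.minFac ≠ 2 := by
      intro h
      rw [h] at hqo
      exact absurd hqo (by decide)
    have hm3 : 3 ≤ m := by
      obtain ⟨j, hj⟩ := hmo
      by_contra hcon
      have h4 : m = 1 := by omega
      rw [h4, mul_one] at hm
      exact hnp (hm ▸ hq)
    rw [hm] at hct
    intro h
    rw [inv_cycle hθ hr hrk hq hq2 hmo hm3 (g := h * g * h⁻¹) (by rw [cycleType_conj, hct]),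
      inv_cycle hθ hr hrk hq hq2 hmo hm3 hct]
  · have h2 := two_le_supp hτ
    rw [hgc]
    refine inv_mul hθ hr hrk (mem_alternatingGroup.mpr hsc) (mem_alternatingGroup.mpr hst) hd
      (inv_of_cent hθ fun h3 => ?_) (inv_of_cent hθ fun h3 => ?_)
    · have h4 := card_le_of_centralizer_le_alternating h3
      rw [sum_cycleType] at h4
      omega
    · have h4 := card_le_of_centralizer_le_alternating h3
      rw [sum_cycleType] at h4
      omega

end Pool.Agent.U93.T
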