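import Pool.Agent.U93.T.Div

/-!
# Continuations, and equality of the orders over different intermediate fields
-/

set_option autoImplicit false
set_option linter.unusedSectionVars false

namespace Pool.Agent.U93.T

open Equiv Equiv.Perm Pool.Agent.U93.S Pool.Agent.U93.L Pool.Agent.H302R2 Pool.Agent.H302R3
  Pool.Agent.U93.Q Pool.Agent.H541R3.ART Pool.Agent.R389 Pool.Agent.U143.RG Pool.Agent.W446.AS
  Pool.Agent.U143.SH

/-- meromorphic continuation in normal form -/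
theorem exists_cont {P : ℂ → ℂ} {S : Set ℂ} (hP : ∀ s, MeromorphicAt P s)
    (hS : ∀ s ∈ S, AnalyticAt ℂ P s) :
    ∃ f : ℂ → ℂ, (∀ s, MeromorphicAt f s) ∧ (∀ s ∈ S, f s = P s) ∧
      (∀ s, meromorphicOrderAt f s = meromorphicOrderAt P s) ∧
      (∀ s, 0 ≤ meromorphicOrderAt P s → AnalyticAt ℂ f s) ∧
      ∀ s, meromorphicOrderAt P s = 0 → f s ≠ 0 := by
  have hP' : MeromorphicOn P Set.univ := fun s _ => hP s
  have hN := meromorphicNFOn_toMeromorphicNFOn P Set.univ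
  have hO : ∀ s, meromorphicOrderAt (toMeromorphicNFOn P Set.univ) s = meromorphicOrderAt P s :=
    fun s => meromorphicOrderAt_toMeromorphicNFOn hP' (Set.mem_univ s)
  refine ⟨toMeromorphicNFOn P Set.univ, fun s => (hN (Set.mem_univ s)).meromorphicAt, ?_, hO, ?_,
    ?_⟩
  · intro s hs
    rw [toMeromorphicNFOn_eq_toMeromorphicNFAt hP' (Set.mem_univ s),
      toMeromorphicNFAt_eq_self.mpr (hS s hs).meromorphicNFAt]
  · intro s hs
    rw [← hO s] at hs
    exact (hN (Set.mem_univ s)).meromorphicOrderAt_nonneg_iff_analyticAt.mp hs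
  · intro s hs
    rw [← hO s] at hs
    exact (hN (Set.mem_univ s)).meromorphicOrderAt_eq_zero_iff.mp hs

section shape

variable {α : Type} [Fintype α] [DecidableEq α] {H : Type} [Group H] [Finite H]
  {ι : H →* Perm α} (hι : Function.Injective ι)

include hι in
theorem shape_sol (hA : alternatingGroup α ≤ ι.range) {θ : H → ℂ} (hθ : IsSolHeilbronn θ) {r : ℕ}
    (hr : θ 1 = r) (hrk : Small (Fintype.card α) 2 r) (h12 : 12 ≤ Fintype.card α) :
    ∃ (c₁ c₂ : ℕ) (a₁ a₂ : ℂ), ∀ (M : Subgroup H) [Fintype M] (χ : M → ℂ),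
      VanI (Fintype.card α) ι M χ → ∑ h : M, θ h * χ h⁻¹ = ∑ h : M, (a₁ + a₂ * sn (ι h)
      + (c₁ + c₂ * sn (ι h)) * fx (ι h)) * χ h⁻¹ := by
  classical
  let e := MonoidHom.ofInjective hι
  have hθ' : IsSolHeilbronn (fun g : ι.range => θ (e.symm g)) := hθ.comp e.symm.toMonoidHom
  obtain ⟨c₁, c₂, a₁, a₂, hs⟩ := sum_shape hA hθ' (r := r) (by
    rw [map_one]; exact hr) hrk h12
  refine ⟨c₁, c₂, a₁, a₂, fun M _ χ hV => ?_⟩
  have : Fintype (sub hι M) := Fintype.ofFinite _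
  have hval : ∀ h : M, θ (e.symm ((em hι M h : sub hι M) : ι.range)) = θ h := by
    intro h
    rw [em_mid, MulEquiv.symm_apply_apply]
  have h1 := hs (sub hι M) (fun h => χ ((em hι M).symm h)) (van_sub hι hV)
  rw [← Equiv.sum_comp (em hι M).toEquiv, ← Equiv.sum_comp (em hι M).toEquiv] at h1
  refine Eq.trans (Finset.sum_congr rfl fun h _ => ?_) (h1.trans
    (Finset.sum_congr rfl fun h _ => ?_))
  · change _ = θ (e.symm ((em hι M h : sub hι M) : ι.range)) * χ ((em hι M).symm (em hι M h)⁻¹)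
    rw [hval, ← map_inv, MulEquiv.symm_apply_apply]
  · change (a₁ + a₂ * sn ((((em hι M h : sub hι M) : ι.range)) : Perm α)
      + (c₁ + c₂ * sn ((((em hι M h : sub hι M) : ι.range)) : Perm α))
      * fx ((((em hι M h : sub hι M) : ι.range)) : Perm α)) * χ ((em hι M).symm (em hι M h)⁻¹) = _
    rw [em_val, ← map_inv, MulEquiv.symm_apply_apply]

/-- the means of `sn`, `fx` and `sn * fx` over two subgroups agree -/
def SameMeans {H : Type} [Group H] (ι : H →* Perm α) (M M' : Subgroup H) : Prop :=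
  ∀ f ∈ ({sn, fun g => (fx g : ℂ), fun g => sn g * (fx g : ℂ)} : Set (Perm α → ℂ)),
    (∑ᶠ h : M, f (ι h)) / Nat.card M = (∑ᶠ h : M', f (ι h)) / Nat.card M'

include hι in
theorem mean_sol (hA : alternatingGroup α ≤ ι.range) {θ : H → ℂ} (hθ : IsSolHeilbronn θ) {r : ℕ}
    (hr : θ 1 = r) (hrk : Small (Fintype.card α) 2 r) (h12 : 12 ≤ Fintype.card α)
    {M M' : Subgroup H} [Fintype M] [Fintype M']
    (hV : VanI (Fintype.card α) ι M (fun _ => 1)) (hV' : VanI (Fintype.card α) ι M' (fun _ => 1))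
    (hS : SameMeans ι M M') :
    (∑ h : M, θ h) / Nat.card M = (∑ h : M', θ h) / Nat.card M' := by
  classical
  obtain ⟨c₁, c₂, a₁, a₂, hs⟩ := shape_sol hι hA hθ hr hrk h12
  have key : ∀ (N : Subgroup H) [Fintype N], VanI (Fintype.card α) ι N (fun _ => 1) →
      (∑ h : N, θ h) / Nat.card N = a₁ + a₂ * ((∑ᶠ h : N, sn (ι h)) / Nat.card N)
        + c₁ * ((∑ᶠ h : N, (fx (ι h) : ℂ)) / Nat.card N)
        + c₂ * ((∑ᶠ h : N, sn (ι h) * (fx (ι h) : ℂ)) / Nat.card N) := by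
    intro N _ hN
    have h1 := hs N (fun _ => 1) hN
    simp only [mul_one] at h1
    have h2 := shape_sum (ι.comp N.subtype) c₁ c₂ a₁ a₂
    simp only [MonoidHom.coe_comp, Function.comp_apply, Subgroup.coe_subtype] at h2
    have h8 : (Nat.card N : ℂ) ≠ 0 := card_ne
    rw [h1, h2, finsum_eq_sum_of_fintype, finsum_eq_sum_of_fintype, finsum_eq_sum_of_fintype,
      ← Nat.card_eq_fintype_card]
    field_simp
  rw [key M hV, key M' hV', hS sn (by simp), hS (fun g => (fx g : ℂ)) (by simp),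
    hS (fun g => sn g * (fx g : ℂ)) (by simp)]

end shape

section orders

variable {G : Type} [Group G] [Finite G] {L : (G → ℂ) → ℂ → ℂ} {c : ℂ}

/-- **Equality of the orders over different intermediate fields** -/
theorem order_mean
    (hL : ∀ χ ∈ Irr G, MeromorphicAt (L χ) c ∧ meromorphicOrderAt (L χ) c ≠ ⊤)
    (hsol : ∀ U : Subgroup G, Group.IsSolvable U → ∀ (ψ : U →* ℂˣ) (m : (G → ℂ) → ℕ),
      IsDecomp (ind U (fun h => ((ψ h : ℂˣ) : ℂ))) m →
        0 ≤ meromorphicOrderAt (fun s => ∏ᶠ χ ∈ Irr G, L χ s ^ m χ) c)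
    (r t : ℕ) (C : ℕ → Subgroup G) (hC : Monotone C) (hn : ∀ i, (C i).Normal) (h0 : C 0 = ⊥)
    (hs : Group.IsSolvable (C t))
    (hg : ∀ i < t, ∀ m m' : (G → ℂ) → ℕ, IsDecomp (ind (C i) (fun _ => 1)) m →
      IsDecomp (ind (C (i + 1)) (fun _ => 1)) m' →
        meromorphicOrderAt (fun s => ∏ᶠ χ ∈ Irr G, L χ s ^ m χ) c
          ≤ meromorphicOrderAt (fun s => ∏ᶠ χ ∈ Irr G, L χ s ^ m' χ) c + (r : WithTop ℤ))
    (hl : ∀ m : (G → ℂ) → ℕ, IsDecomp (ind (C t) (fun _ => 1)) m →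
      meromorphicOrderAt (fun s => ∏ᶠ χ ∈ Irr G, L χ s ^ m χ) c ≤ (r : WithTop ℤ))
    {n : ℕ} {ι : G →* Perm (Fin n)} (hι : Function.Injective ι)
    (hA : alternatingGroup (Fin n) ≤ ι.range) (hrk : Small n 2 r) (h12 : 12 ≤ n)
    {M M' : Subgroup G} (hV : VanI n ι M (fun _ => 1)) (hV' : VanI n ι M' (fun _ => 1))
    (hS : SameMeans ι M M')
    {m m' : (G → ℂ) → ℕ} (hm : IsDecomp (ind M (fun _ => 1)) m)
    (hm' : IsDecomp (ind M' (fun _ => 1)) m') :
    meromorphicOrderAt (fun s => ∏ᶠ χ ∈ Irr G, L χ s ^ m χ) c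
      = meromorphicOrderAt (fun s => ∏ᶠ χ ∈ Irr G, L χ s ^ m' χ) c := by
  classical
  have : Fintype M := Fintype.ofFinite M
  have : Fintype M' := Fintype.ofFinite M'
  have hcn : Fintype.card (Fin n) = n := Fintype.card_fin n
  have hz := ords_prop hL hsol r t C hC hn h0 hs hg hl
    (fun θ => (∑ h : M, θ h) / Nat.card M = (∑ h : M', θ h) / Nat.card M') (fun a b ha hb => by
      simp only [Finset.sum_add_distrib, add_div]
      rw [ha, hb]) (fun η hη s hsr h => mean_sol hι hA hη h (by rw [hcn]; exact hrk.mono hsr)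
        (by rw [hcn]; exact h12) (by rw [hcn]; exact hV) (by rw [hcn]; exact hV') hS)
  have h1 := sum_eq_gen (L := L) (c := c) M (fun _ => 1) hm
  have h2 := sum_eq_gen (L := L) (c := c) M' (fun _ => 1) hm'
  rw [finsum_eq_sum_of_fintype] at h1 h2
  simp only [mul_one] at h1 h2
  have h8 : (Nat.card M : ℂ) ≠ 0 := card_ne
  have h9 : (Nat.card M' : ℂ) ≠ 0 := card_ne
  rw [h1, h2, mul_div_assoc, mul_div_assoc, div_self h8, div_self h9, mul_one, mul_one] at hz
  rw [ordm_eq hL, ordm_eq hL]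
  have h3 : (∑ χ ∈ irrF G, (m χ : ℤ) * ords L c χ) = ∑ χ ∈ irrF G, (m' χ : ℤ) * ords L c χ := by
    exact_mod_cast hz
  rw [h3]

end orders

end Pool.Agent.U93.T
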