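import Pool.Agent.U93.T.Fin
import Pool.Agent.W446.AS.FMain

/-!
# Divisibility: the order over an intermediate field is at most the order over the top field
-/

set_option autoImplicit false
set_option linter.unusedSectionVars false

namespace Pool.Agent.U93.T

open Equiv Equiv.Perm Pool.Agent.U93.S Pool.Agent.U93.L Pool.Agent.H302R2 Pool.Agent.H302R3
  Pool.Agent.U93.Q Pool.Agent.H541R3.ART Pool.Agent.R389 Pool.Agent.U143.RG Pool.Agent.W446.AS
  Pool.Agent.U143.SH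

variable {G : Type} [Group G] [Finite G] {L : (G → ℂ) → ℂ → ℂ} {c : ℂ}

/-- characters induced from irreducible characters are characters -/
lemma ind_irr_decomp (M : Subgroup G) {χ : M → ℂ} (hχ : χ ∈ Irr M) :
    ∃ m : (G → ℂ) → ℕ, IsDecomp (ind M χ) m := by
  classical
  choose! m hm using fun X (hX : X ∈ Irr G) => exists_mult_irr hX M hχ
  refine ⟨m, IsDecomp.of_pr (fun g x => ind_class M χ g x) fun X hX => ?_⟩
  have h8 : (Nat.card M : ℂ) ≠ 0 := card_ne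
  rw [frob M χ (Irr.conj hX), pr_symm, pr, hm X hX]
  field_simp

lemma pr_order (M : Subgroup G) {χ : M → ℂ} {m : (G → ℂ) → ℕ} (hm : IsDecomp (ind M χ) m) :
    pr (fun h : M => (theta (ords L c) : G → ℂ) h) χ = (oo L c m : ℂ) := by
  have h1 := sum_eq_gen (L := L) (c := c) M χ hm
  have h8 : (Nat.card M : ℂ) ≠ 0 := card_ne
  rw [pr, h1, oo]
  field_simp

/-- **Divisibility** -/
theorem order_le
    (hL : ∀ χ ∈ Irr G, MeromorphicAt (L χ) c ∧ meromorphicOrderAt (L χ) c ≠ ⊤)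
    (M : Subgroup G)
    (hnn : ∀ χ ∈ Irr M, ∀ m : (G → ℂ) → ℕ, IsDecomp (ind M χ) m →
      0 ≤ meromorphicOrderAt (fun s => ∏ᶠ χ ∈ Irr G, L χ s ^ m χ) c)
    {χ₀ : M → ℂ} (hχ₀ : χ₀ ∈ Irr M) {m₀ m : (G → ℂ) → ℕ} (hm₀ : IsDecomp (ind M χ₀) m₀)
    (hm : IsDecomp (ind (⊥ : Subgroup G) (fun _ => 1)) m) :
    meromorphicOrderAt (fun s => ∏ᶠ χ ∈ Irr G, L χ s ^ m₀ χ) c
      ≤ meromorphicOrderAt (fun s => ∏ᶠ χ ∈ Irr G, L χ s ^ m χ) c := by
  classical
  choose! mm hmm using fun χ (hχ : χ ∈ Irr M) => ind_irr_decomp M hχ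
  choose! d hd0 hd using fun (χ : M → ℂ) (hχ : χ ∈ Irr M) => irr_deg_pos hχ
  rw [Pool.Agent.U143.SH.order_eq hL, Pool.Agent.U143.SH.order_eq hL]
  -- the value at one
  have h1 : (theta (ords L c) : G → ℂ) 1 = (oo L c m : ℂ) := by
    have h2 := sum_eq_gen (L := L) (c := c) (⊥ : Subgroup G) (fun _ => 1) hm
    have h3 : Nat.card (⊥ : Subgroup G) = 1 := by simp
    rw [h3, Nat.cast_one, mul_one] at h2
    rw [oo, ← h2, finsum_eq_single _ (1 : (⊥ : Subgroup G))]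
    · simp
    · intro x hx
      exact absurd (Subsingleton.elim x 1) hx
  have h2 := class_expand (f := fun h : M => (theta (ords L c) : G → ℂ) h)
    (fun g x => by
      have h3 := (theta_virt (G := G) (ords L c)).conj (g : G) (x : G)
      exact h3) 1
  have h4 : (oo L c m : ℂ) = ∑ χ ∈ irrF M, (oo L c (mm χ) : ℂ) * (d χ : ℂ) := by
    rw [← h1]
    refine Eq.trans h2 (Finset.sum_congr rfl fun χ hχ => ?_)
    rw [pr_order M (hmm χ (mem_irrF.mp hχ)), hd χ (mem_irrF.mp hχ)]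
  have h5 : oo L c m = ∑ χ ∈ irrF M, oo L c (mm χ) * (d χ : ℤ) := by
    exact_mod_cast h4
  have hnn' : ∀ χ ∈ Irr M, 0 ≤ oo L c (mm χ) := by
    intro χ hχ
    have h6 := hnn χ hχ (mm χ) (hmm χ hχ)
    rw [Pool.Agent.U143.SH.order_eq hL] at h6
    exact_mod_cast h6
  have h6 : oo L c m₀ = oo L c (mm χ₀) := by
    have h7 := pr_order (L := L) (c := c) M hm₀
    have h8 := pr_order (L := L) (c := c) M (hmm χ₀ hχ₀)
    rw [h7] at h8
    exact_mod_cast h8
  have h7 : oo L c (mm χ₀) * (d χ₀ : ℤ) ≤ oo L c m := by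
    rw [h5]
    exact Finset.single_le_sum (f := fun χ => oo L c (mm χ) * (d χ : ℤ))
      (fun χ hχ => mul_nonneg (hnn' χ (mem_irrF.mp hχ)) (by positivity)) (mem_irrF.mpr hχ₀)
  have h8 : oo L c (mm χ₀) ≤ oo L c (mm χ₀) * (d χ₀ : ℤ) := by
    have h9 : (1 : ℤ) ≤ d χ₀ := by exact_mod_cast hd0 χ₀ hχ₀
    nlinarith [hnn' χ₀ hχ₀]
  rw [h6]
  exact_mod_cast h8.trans h7

end Pool.Agent.U93.T
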