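import Pool.Agent.U93.T.Wr
import Pool.Agent.U93.Q.Deriv

/-!
# Solvable transitive groups without elements with cycles of exceptional length
-/

set_option autoImplicit false
set_option linter.unusedSectionVars false

namespace Pool.Agent.U93.T

open Equiv Equiv.Perm Pool.Agent.U93.Q

variable {α : Type} [Fintype α] [DecidableEq α]

/-- a solvable group which is transitive, has odd elements in the stabilizers and no elements with a
cycle of exceptional length -/
def Nice (W : Subgroup (Perm α)) : Prop :=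
  Group.IsSolvable W ∧ (∀ x y : α, ∃ g ∈ W, g x = y) ∧ (∀ x : α, ∃ g ∈ W, g x = x ∧ sign g = -1) ∧
    ∀ g ∈ W, ∀ l ∈ g.cycleType, ¬ Exc (Fintype.card α) l

lemma nice_of (B : Type) [AddCommGroup B] [Fintype B] [DecidableEq B] [Nontrivial B] (u e : ℕ)
    [Fact u.Prime] (he : ∀ b : B, e • b = 0) (hc : Fintype.card B * u = Fintype.card α)
    (hE : ∀ l, l ∣ e * (u * (u - 1)) → ¬ Exc (Fintype.card α) l) :
    ∃ W : Subgroup (Perm α), Nice W := by
  classical
  have hcard : Fintype.card (B × ZMod u) = Fintype.card α := by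
    rw [Fintype.card_prod, ZMod.card, hc]
  let ε : B × ZMod u ≃ α := Fintype.equivOfCardEq hcard
  have hε : ∀ (g : Perm (B × ZMod u)) (p : B × ZMod u), ε.permCongr g (ε p) = ε (g p) := by
    intro g p
    simp [Equiv.permCongr_apply]
  refine ⟨(WG B u).map ε.permCongrHom.toMonoidHom, ?_, ?_, ?_, ?_⟩
  · have h1 : Group.IsSolvable (WG B u) := WG.sol
    exact Group.isSolvable_of_surjective
      (MonoidHom.subgroupMap_surjective ε.permCongrHom.toMonoidHom (WG B u))
  · intro x y
    obtain ⟨g, hg, hgx⟩ := WG.trans (ε.symm x) (ε.symm y)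
    refine ⟨ε.permCongr g, ⟨g, hg, rfl⟩, ?_⟩
    have h1 := hε g (ε.symm x)
    rw [ε.apply_symm_apply, hgx, ε.apply_symm_apply] at h1
    exact h1
  · intro x
    obtain ⟨g, hg, hgx, hs⟩ := WG.odd (ε.symm x)
    refine ⟨ε.permCongr g, ⟨g, hg, rfl⟩, ?_, ?_⟩
    · have h1 := hε g (ε.symm x)
      rw [ε.apply_symm_apply, hgx, ε.apply_symm_apply] at h1
      exact h1
    · rw [sign_permCongr, hs]
  · rintro _ ⟨g, hg, rfl⟩ l hl
    have h1 : l ∈ g.cycleType := by
      have h2 : (ε.permCongrHom.toMonoidHom g).cycleType = g.cycleType := cycleType_permCongr ε g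
      rwa [h2] at hl
    exact hE l ((dvd_of_mem_cycleType h1).trans (orderOf_dvd_of_pow_eq_one (WG.pow_eq he hg)))

/-- odd degrees -/
lemma nice_odd (h12 : 12 ≤ Fintype.card α) (hodd : Odd (Fintype.card α))
    (hp : ¬ (Fintype.card α).Prime) : ∃ W : Subgroup (Perm α), Nice W := by
  set n := Fintype.card α with hn
  have hu : n.minFac.Prime := Nat.minFac_prime (by omega)
  obtain ⟨u, hud⟩ : ∃ u, u = n.minFac := ⟨_, rfl⟩
  rw [← hud] at hu
  have : Fact u.Prime := ⟨hu⟩
  obtain ⟨v, hv⟩ : u ∣ n := hud ▸ n.minFac_dvd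
  have hu2 : u ≠ 2 := by
    rintro rfl
    rw [hv] at hodd
    exact (Nat.not_odd_iff_even.mpr (even_two_mul v)) hodd
  have hu3 : 3 ≤ u := by
    have := hu.two_le
    omega
  have huv : u ≤ v := by
    have h1 : n.minFac ≤ n / n.minFac := Nat.minFac_le_div (by omega) hp
    rw [← hud, hv, Nat.mul_div_cancel_left _ hu.pos] at h1
    exact h1
  have hvn : 3 * v ≤ n := by
    rw [hv]
    exact Nat.mul_le_mul_right v hu3
  have : NeZero v := ⟨by omega⟩
  have : Fact (1 < v) := ⟨by omega⟩
  have hvo : Odd v := by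
    rw [hv] at hodd
    exact (Nat.odd_mul.mp hodd).2
  have huo : Odd u := hu.odd_of_ne_two hu2
  refine nice_of (ZMod v) u v (fun b => by simp) (by rw [ZMod.card, ← hn, hv, mul_comm]) ?_
  intro l hl hE
  rcases hE with ⟨hlp, hln⟩ | ⟨j, rfl, hln⟩
  · have hle : l ≤ v := by
      rcases (Nat.Prime.dvd_mul hlp).mp hl with h1 | h1
      · exact Nat.le_of_dvd (by omega) h1
      · rcases (Nat.Prime.dvd_mul hlp).mp h1 with h2 | h2
        · exact (Nat.le_of_dvd (by omega) h2).trans huv
        · exact (Nat.le_of_dvd (by omega) h2).trans (by omega)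
    rw [← hn] at hln
    omega
  · have h1 : Nat.Coprime (2 ^ j) (v * u) := by
      refine Nat.Coprime.pow_left j ?_
      rw [Nat.coprime_two_left]
      exact hvo.mul huo
    have h2 : 2 ^ j ∣ u - 1 := by
      rw [← mul_assoc] at hl
      exact h1.dvd_of_dvd_mul_left hl
    have h3 := Nat.le_of_dvd (by omega) h2
    rw [← hn] at hln
    omega

lemma z2_add (z : ZMod 2) : z + z = 0 := by
  revert z; decide

/-- even degrees -/
lemma nice_even (h12 : 12 ≤ Fintype.card α) (heven : Even (Fintype.card α))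
    (h2p : ∀ p : ℕ, p.Prime → Fintype.card α ≠ 2 * p) : ∃ W : Subgroup (Perm α), Nice W := by
  set n := Fintype.card α with hn
  have : Fact (Nat.Prime 2) := ⟨Nat.prime_two⟩
  obtain ⟨m, hm⟩ := heven
  by_cases h2 : ∃ j, n = 2 ^ j
  · obtain ⟨j, hj⟩ := h2
    have hj4 : 4 ≤ j := by
      by_contra hcon
      have : j ≤ 3 := by omega
      interval_cases j <;> omega
    obtain ⟨k, rfl⟩ : ∃ k, j = k + 4 := ⟨j - 4, by omega⟩
    have h4 : n = 16 * 2 ^ k := by rw [hj, pow_add]; ring
    have hk : 0 < 2 ^ k := by positivity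
    have : NeZero (4 * 2 ^ k) := ⟨by omega⟩
    refine nice_of (ZMod 2 × ZMod (4 * 2 ^ k)) 2 (4 * 2 ^ k) ?_ ?_ ?_
    · rintro ⟨x, y⟩
      refine Prod.ext ?_ ?_
      · change (4 * 2 ^ k) • x = 0
        rw [show 4 * 2 ^ k = (2 * 2 ^ k) * 2 by ring, mul_nsmul, two_nsmul]
        exact z2_add _
      · change (4 * 2 ^ k) • y = 0
        rw [nsmul_eq_mul, ZMod.natCast_self, zero_mul]
    · rw [Fintype.card_prod, ZMod.card, ZMod.card, ← hn, h4]
      ring
    · intro l hl hE
      have hl2 : l ∣ 2 ^ (k + 3) := by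
        refine hl.trans (dvd_of_eq ?_)
        rw [pow_add]
        ring
      have hle := Nat.le_of_dvd (by positivity) hl2
      have h8 : 2 ^ (k + 3) = 8 * 2 ^ k := by rw [pow_add]; ring
      rcases hE with ⟨hlp, hln⟩ | ⟨i, rfl, hln⟩
      · have h5 : l = 2 := (Nat.prime_dvd_prime_iff_eq hlp Nat.prime_two).mp
          (hlp.dvd_of_dvd_pow hl2)
        rw [← hn] at hln
        omega
      · rw [← hn] at hln
        omega
  · push Not at h2
    have hm6 : 6 ≤ m := by omega
    have : NeZero m := ⟨by omega⟩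
    have : Fact (1 < m) := ⟨by omega⟩
    refine nice_of (ZMod m) 2 m (fun b => by simp) (by rw [ZMod.card, ← hn]; omega) ?_
    intro l hl hE
    obtain ⟨k, hk⟩ : l ∣ 2 * m := by
      refine hl.trans (dvd_of_eq ?_)
      ring
    have hn2 : n = l * k := by omega
    have hk0 : k ≠ 0 := by
      rintro rfl
      omega
    rcases hE with ⟨hlp, hln⟩ | ⟨i, rfl, hln⟩
    · rw [← hn] at hln
      rcases Nat.lt_or_ge k 3 with h3 | h3
      · interval_cases k
        · exact absurd rfl hk0
        · have h5 : l = 2 := ((Nat.prime_dvd_prime_iff_eq Nat.prime_two hlp).mp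
            ⟨m, by omega⟩).symm
          omega
        · exact h2p l hlp (by omega)
      · have h5 : l * 3 ≤ l * k := Nat.mul_le_mul_left l h3
        omega
    · rw [← hn] at hln
      rcases Nat.lt_or_ge k 2 with h3 | h3
      · have hk1 : k = 1 := by omega
        subst hk1
        exact h2 i (by omega)
      · have h5 : 2 ^ i * 2 ≤ 2 ^ i * k := Nat.mul_le_mul_left _ h3
        omega

/-- **Existence** -/
theorem exists_nice (h12 : 12 ≤ Fintype.card α) (hp : ¬ (Fintype.card α).Prime)
    (h2p : ∀ p : ℕ, p.Prime → Fintype.card α ≠ 2 * p) : ∃ W : Subgroup (Perm α), Nice W := by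
  rcases Nat.even_or_odd (Fintype.card α) with h | h
  · exact nice_even h12 h h2p
  · exact nice_odd h12 h hp

end Pool.Agent.U93.T
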