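import Pool.Agent.U93.T.Two
import Pool.Agent.U93.S.Ord

/-!
# Orders of L-functions over intermediate fields, positivity on solvable subgroups only
-/

set_option autoImplicit false
set_option linter.unusedSectionVars false

namespace Pool.Agent.U93.T

open Equiv Equiv.Perm Pool.Agent.U93.S Pool.Agent.U93.L Pool.Agent.H302R2 Pool.Agent.H302R3
  Pool.Agent.U93.Q Pool.Agent.H541R3.ART Pool.Agent.R389 Pool.Agent.U143.RG Pool.Agent.W446.AS
  Pool.Agent.U143.SH

section hom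

variable {α : Type} [Fintype α] [DecidableEq α] {H : Type} [Group H]

open Classical in
/-- For each cycle `C` of exceptional length the sum of `χ (h)` over the `h ∈ M` for which `C` is one
of the cycles of `ι h` is zero, and also the sum of `sign(ι h) χ(h)`. -/
def VanI (n : ℕ) (ι : H →* Perm α) (M : Subgroup H) (χ : M → ℂ) : Prop :=
  ∀ C : Perm α, C.IsCycle → Exc n C.support.card →
    ∑ᶠ h : M, (if C ∈ (ι h).cycleFactorsFinset then χ h else 0) = 0 ∧
    ∑ᶠ h : M, (if C ∈ (ι h).cycleFactorsFinset then sn (ι h) * χ h else 0) = 0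

/-- If no element of `M` has a cycle of exceptional length, then the condition is empty. -/
lemma vanI_of_free {n : ℕ} (ι : H →* Perm α) {M : Subgroup H} (χ : M → ℂ)
    (hM : ∀ h ∈ M, ∀ l ∈ (ι h).cycleType, ¬ Exc n l) : VanI n ι M χ := by
  classical
  have h1 : ∀ C : Perm α, Exc n C.support.card → ∀ h : M, C ∉ (ι h).cycleFactorsFinset := by
    intro C hE h hC
    refine hM h h.2 C.support.card ?_ hE
    rw [cycleType_def, Multiset.mem_map]
    exact ⟨C, hC, rfl⟩
  intro C _ hE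
  constructor
  · rw [finsum_eq_zero_of_forall_eq_zero]
    intro h
    rw [if_neg (h1 C hE h)]
  · rw [finsum_eq_zero_of_forall_eq_zero]
    intro h
    rw [if_neg (h1 C hE h)]

lemma one_irr {M : Type} [Group M] [Finite M] : (fun _ : M => (1 : ℂ)) ∈ Irr M := by
  have h := lin_irr (1 : M →* ℂˣ)
  simpa using h

variable [Finite H] {ι : H →* Perm α} (hι : Function.Injective ι)

/-- the corresponding subgroup of the image -/
noncomputable def sub (M : Subgroup H) : Subgroup ι.range :=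
  M.map (MonoidHom.ofInjective hι).toMonoidHom

/-- the isomorphism -/
noncomputable def em (M : Subgroup H) : M ≃* sub hι M := (MonoidHom.ofInjective hι).subgroupMap M

lemma em_val (M : Subgroup H) (h : M) :
    ((((em hι M h : sub hι M) : ι.range)) : Perm α) = ι h := rfl

lemma em_mid (M : Subgroup H) (h : M) :
    ((em hι M h : sub hι M) : ι.range) = MonoidHom.ofInjective hι (h : H) := rfl

lemma van_sub {n : ℕ} {M : Subgroup H} {χ : M → ℂ} (hV : VanI n ι M χ) :
    Van n (sub hι M) (fun h => χ ((em hι M).symm h)) := by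
  classical
  intro C hC hE
  obtain ⟨h1, h2⟩ := hV C hC hE
  constructor
  · refine Eq.trans ?_ h1
    rw [← finsum_comp_equiv (em hι M).toEquiv]
    refine finsum_congr fun h => ?_
    change (if C ∈ ((((em hι M h : sub hι M) : ι.range)) : Perm α).cycleFactorsFinset then
      χ ((em hι M).symm (em hι M h)) else 0) = _
    rw [em_val, MulEquiv.symm_apply_apply]
  · refine Eq.trans ?_ h2
    rw [← finsum_comp_equiv (em hι M).toEquiv]
    refine finsum_congr fun h => ?_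
    change (if C ∈ ((((em hι M h : sub hι M) : ι.range)) : Perm α).cycleFactorsFinset then
      sn ((((em hι M h : sub hι M) : ι.range)) : Perm α) * χ ((em hι M).symm (em hι M h))
        else 0) = _
    rw [em_val, MulEquiv.symm_apply_apply]

include hι in
/-- **Sums over subgroups** -/
theorem pair_sol (hA : alternatingGroup α ≤ ι.range) {θ : H → ℂ} (hθ : IsSolHeilbronn θ) {r : ℕ}
    (hr : θ 1 = r) (hrk : Small (Fintype.card α) 2 r) (h12 : 12 ≤ Fintype.card α)
    (M : Subgroup H) [Fintype M] {χ : M → ℂ} (hχ : χ ∈ Irr M)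
    (hV : VanI (Fintype.card α) ι M χ) :
    (∃ k : ℝ, 0 ≤ k ∧ ∑ h : M, θ h * χ h⁻¹ = k) ∧
    ((χ ≠ fun _ => 1) → (χ ≠ fun h : M => sn (ι h)) →
      ∑ h : M, (fx (ι h) : ℂ) * χ h = 0 → ∑ h : M, sn (ι h) * (fx (ι h) : ℂ) * χ h = 0 →
      ∑ h : M, θ h * χ h⁻¹ = 0) := by
  classical
  have : Fintype (sub hι M) := Fintype.ofFinite _
  let e := MonoidHom.ofInjective hι
  have hθ' : IsSolHeilbronn (fun g : ι.range => θ (e.symm g)) := hθ.comp e.symm.toMonoidHom
  obtain ⟨c₁, c₂, a₁, a₂, hs⟩ := sum_shape hA hθ' (r := r) (by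
    rw [map_one]; exact hr) hrk h12
  have hpos := pos_all hA hθ' h12 hs (sub hι M)
  have hval : ∀ h : M, θ (e.symm ((em hι M h : sub hι M) : ι.range)) = θ h := by
    intro h
    rw [em_mid, MulEquiv.symm_apply_apply]
  have hsum : ∑ h : M, θ h * χ h⁻¹ = ∑ h : M, (a₁ + a₂ * sn (ι h)
      + (c₁ + c₂ * sn (ι h)) * fx (ι h)) * χ h⁻¹ := by
    have h1 := hs (sub hι M) (fun h => χ ((em hι M).symm h)) (van_sub hι hV)
    rw [← Equiv.sum_comp (em hι M).toEquiv, ← Equiv.sum_comp (em hι M).toEquiv] at h1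
    refine Eq.trans (Finset.sum_congr rfl fun h _ => ?_) (h1.trans
      (Finset.sum_congr rfl fun h _ => ?_))
    · change _ = θ (e.symm ((em hι M h : sub hι M) : ι.range)) * χ ((em hι M).symm (em hι M h)⁻¹)
      rw [hval, ← map_inv, MulEquiv.symm_apply_apply]
    · change (a₁ + a₂ * sn ((((em hι M h : sub hι M) : ι.range)) : Perm α)
        + (c₁ + c₂ * sn ((((em hι M h : sub hι M) : ι.range)) : Perm α))
        * fx ((((em hι M h : sub hι M) : ι.range)) : Perm α)) * χ ((em hι M).symm (em hι M h)⁻¹) = _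
      rw [em_val, ← map_inv, MulEquiv.symm_apply_apply]
  refine pair_of_sum (ι.comp M.subtype) (θ := fun h : M => θ h) ?_ ?_ hχ c₁ c₂ a₁ a₂ hsum
  · intro h1
    subst h1
    obtain ⟨k, hk0, hk⟩ := hpos.1 (van_sub hι hV)
    refine ⟨k, hk0, ?_⟩
    rw [← hk, ← Equiv.sum_comp (em hι M).toEquiv]
    exact Finset.sum_congr rfl fun h _ => (hval h).symm
  · intro h1
    subst h1
    have h2 : Van (Fintype.card α) (sub hι M) (fun h => sn ((h : ι.range) : Perm α)) := by
      have h3 := van_sub hι hV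
      have h4 : (fun h : sub hι M => (fun h : M => sn ((ι.comp M.subtype) h)) ((em hι M).symm h))
          = fun h : sub hι M => sn ((h : ι.range) : Perm α) := by
        funext h
        obtain ⟨h', rfl⟩ := (em hι M).surjective h
        simp only [MulEquiv.symm_apply_apply]
        rfl
      rw [h4] at h3
      exact h3
    obtain ⟨k, hk0, hk⟩ := hpos.2 h2
    refine ⟨k, hk0, ?_⟩
    rw [← hk, ← Equiv.sum_comp (em hι M).toEquiv]
    refine Finset.sum_congr rfl fun h _ => ?_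
    change θ h * sn (ι h) = θ (e.symm ((em hι M h : sub hι M) : ι.range)) * _
    rw [hval]
    rfl

end hom

section orders

variable {G : Type} [Group G] [Finite G] {L : (G → ℂ) → ℂ → ℂ} {c : ℂ}

lemma sum_eq_gen (U : Subgroup G) (χ : U → ℂ) {m : (G → ℂ) → ℕ} (hm : IsDecomp (ind U χ) m) :
    ∑ᶠ g : U, (theta (ords L c) : G → ℂ) g * χ g⁻¹
      = ((∑ χ ∈ irrF G, (m χ : ℤ) * ords L c χ : ℤ) : ℂ) * Nat.card U := by
  have h7 := pr_ords (l := L) (c := c) (m := fun χ => (m χ : ℤ))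
    (fun χ hχ => by rw [hm.pr hχ]; simp)
  rw [frob' U _ (theta_virt _).conj, pr] at h7
  have h8 : (Nat.card U : ℂ) ≠ 0 := card_ne
  rw [inv_mul_eq_iff_eq_mul₀ h8] at h7
  rw [mul_comm _ (Nat.card U : ℂ), ← h7]

/-- **The orders over the intermediate fields**, for functions which are nonnegative on the solvable
subgroups and grow slowly along a chain. -/
theorem order_chain
    (hL : ∀ χ ∈ Irr G, MeromorphicAt (L χ) c ∧ meromorphicOrderAt (L χ) c ≠ ⊤)
    (hsol : ∀ U : Subgroup G, Group.IsSolvable U → ∀ (ψ : U →* ℂˣ) (m : (G → ℂ) → ℕ),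
      IsDecomp (ind U (fun h => ((ψ h : ℂˣ) : ℂ))) m →
        0 ≤ meromorphicOrderAt (fun s => ∏ᶠ χ ∈ Irr G, L χ s ^ m χ) c)
    (r t : ℕ) (C : ℕ → Subgroup G) (hC : Monotone C) (hn : ∀ i, (C i).Normal) (h0 : C 0 = ⊥)
    (hs : Group.IsSolvable (C t))
    (hg : ∀ i < t, ∀ m m' : (G → ℂ) → ℕ, IsDecomp (ind (C i) (fun _ => 1)) m →
      IsDecomp (ind (C (i + 1)) (fun _ => 1)) m' →
        meromorphicOrderAt (fun s => ∏ᶠ χ ∈ Irr G, L χ s ^ m χ) c
          ≤ meromorphicOrderAt (fun s => ∏ᶠ χ ∈ Irr G, L χ s ^ m' χ) c + (r : WithTop ℤ))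
    (hl : ∀ m : (G → ℂ) → ℕ, IsDecomp (ind (C t) (fun _ => 1)) m →
      meromorphicOrderAt (fun s => ∏ᶠ χ ∈ Irr G, L χ s ^ m χ) c ≤ (r : WithTop ℤ))
    {n : ℕ} {ι : G →* Perm (Fin n)} (hι : Function.Injective ι)
    (hA : alternatingGroup (Fin n) ≤ ι.range) (hrk : Small n 2 r) (h12 : 12 ≤ n)
    (M : Subgroup G) {χ : M → ℂ} (hχ : χ ∈ Irr M) (hV : VanI n ι M χ)
    {m : (G → ℂ) → ℕ} (hm : IsDecomp (ind M χ) m) :
    0 ≤ meromorphicOrderAt (fun s => ∏ᶠ χ ∈ Irr G, L χ s ^ m χ) c ∧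
    ((χ ≠ fun _ => 1) → (χ ≠ fun h : M => sn (ι h)) →
      ∑ᶠ h : M, (fx (ι h) : ℂ) * χ h = 0 → ∑ᶠ h : M, sn (ι h) * (fx (ι h) : ℂ) * χ h = 0 →
      meromorphicOrderAt (fun s => ∏ᶠ χ ∈ Irr G, L χ s ^ m χ) c = 0) := by
  classical
  have : Fintype M := Fintype.ofFinite M
  have hcn : Fintype.card (Fin n) = n := Fintype.card_fin n
  have hall : ∀ η : G → ℂ, IsSolHeilbronn η → ∀ s : ℕ, s ≤ r → η 1 = s →
      (∃ k : ℝ, 0 ≤ k ∧ ∑ h : M, η h * χ h⁻¹ = k) ∧
      ((χ ≠ fun _ => 1) → (χ ≠ fun h : M => sn (ι h)) →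
        ∑ h : M, (fx (ι h) : ℂ) * χ h = 0 → ∑ h : M, sn (ι h) * (fx (ι h) : ℂ) * χ h = 0 →
        ∑ h : M, η h * χ h⁻¹ = 0) := by
    intro η hη s hsr h1
    exact pair_sol hι hA hη h1 (by rw [hcn]; exact hrk.mono hsr) (by rw [hcn]; exact h12)
      M hχ (by rw [hcn]; exact hV)
  have hcard : (0 : ℝ) < Nat.card M := by exact_mod_cast Nat.card_pos
  have hcardC : (Nat.card M : ℂ) ≠ 0 := card_ne
  have hkey := sum_eq_gen (L := L) (c := c) M χ hm
  rw [finsum_eq_sum_of_fintype] at hkey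
  refine ⟨?_, fun h1 h2 h3 h4 => ?_⟩
  · obtain ⟨k, hk0, hk⟩ := ords_prop hL hsol r t C hC hn h0 hs hg hl
      (fun θ => ∃ k : ℝ, 0 ≤ k ∧ ∑ h : M, θ h * χ h⁻¹ = k) (fun a b ha hb => by
        obtain ⟨k, hk0, hk⟩ := ha
        obtain ⟨l, hl0, hl⟩ := hb
        refine ⟨k + l, by positivity, ?_⟩
        simp only [add_mul, Finset.sum_add_distrib]
        rw [hk, hl]
        push_cast
        ring) (fun η hη s hsr h1 => (hall η hη s hsr h1).1)
    rw [hk] at hkey
    have h5 : k = ((∑ χ ∈ irrF G, (m χ : ℤ) * ords L c χ : ℤ) : ℝ) * Nat.card M := by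
      exact_mod_cast hkey
    have h6 : (0 : ℝ) ≤ ((∑ χ ∈ irrF G, (m χ : ℤ) * ords L c χ : ℤ) : ℝ) := by
      by_contra hcon
      push Not at hcon
      have := mul_neg_of_neg_of_pos hcon hcard
      linarith
    rw [ordm_eq hL]
    have h7 : (0 : ℤ) ≤ ∑ χ ∈ irrF G, (m χ : ℤ) * ords L c χ := by exact_mod_cast h6
    exact_mod_cast h7
  · rw [finsum_eq_sum_of_fintype] at h3 h4
    have hz := ords_prop hL hsol r t C hC hn h0 hs hg hl
      (fun θ => ∑ h : M, θ h * χ h⁻¹ = 0) (fun a b ha hb => by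
        simp only [add_mul, Finset.sum_add_distrib]
        rw [ha, hb, add_zero]) (fun η hη s hsr h => (hall η hη s hsr h).2 h1 h2 h3 h4)
    rw [hz] at hkey
    have h5 : ((∑ χ ∈ irrF G, (m χ : ℤ) * ords L c χ : ℤ) : ℂ) = 0 :=
      (mul_eq_zero.mp hkey.symm).resolve_right hcardC
    have h6 : ∑ χ ∈ irrF G, (m χ : ℤ) * ords L c χ = 0 := by exact_mod_cast h5
    rw [ordm_eq hL, h6]
    rfl

end orders

end Pool.Agent.U93.T
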