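import Pool.Agent.W295.Cl.Ind
import Pool.Agent.H302R3.Weak

/-!
# Induction of functions which are nonnegative on the solvable subgroups
-/

set_option autoImplicit false
set_option linter.unusedSectionVars false

namespace Pool.Agent.U93.T

open Pool.Agent.H302R2 Pool.Agent.H302R3 Pool.Agent.W295.Cl

variable {S G : Type*} [Group S] [Fintype S] [Group G] [Fintype G] [DecidableEq G]

theorem ind_sol (φ : S →* G) (hφ : Function.Injective φ) {F : S → ℂ} (hF : IsSolHeilbronn F) :
    IsSolHeilbronn (ind φ F) where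
  conj := by
    intro g h
    unfold ind
    congr 1
    rw [← Equiv.sum_comp (Equiv.mulLeft h)]
    refine Finset.sum_congr rfl fun t _ => Finset.sum_congr rfl fun p _ => ?_
    have h1 : (h * t)⁻¹ * (h * g * h⁻¹) * (h * t) = t⁻¹ * g * t := by group
    rw [Equiv.coe_mulLeft, h1]
  mult := by
    classical
    intro U hU l
    have : Fintype U := Fintype.ofFinite _
    let l0 : G → ℂ := fun g => if h : g ∈ U then (((l ⟨g, h⟩)⁻¹ : ℂˣ) : ℂ) else 0
    have hl0 : ∀ u : U, l0 u = (((l u)⁻¹ : ℂˣ) : ℂ) := fun u => dif_pos u.2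
    have hl0' : ∀ g, g ∉ U → l0 g = 0 := fun g hg => dif_neg hg
    have hlc : ∀ (u : U) (g : G), l0 (u * g * (u : G)⁻¹) = l0 g := by
      intro u g
      by_cases hg : g ∈ U
      · have h1 := hl0 (u * ⟨g, hg⟩ * u⁻¹)
        have h2 := hl0 ⟨g, hg⟩
        rw [map_mul, map_mul, map_inv, mul_comm (l u), mul_inv_cancel_right] at h1
        rw [← h2] at h1
        exact h1
      · rw [hl0' g hg, hl0']
        intro h
        apply hg
        have h1 := mul_mem (mul_mem (inv_mem u.2) h) u.2
        have h2 : (u : G)⁻¹ * (u * g * (u : G)⁻¹) * u = g := by group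
        rwa [h2] at h1
    let c : G → ℂ := fun t => ∑ p : S, F p * l0 (t * φ p * t⁻¹)
    have hA : ∑ᶠ u : U, ind φ F u * (((l u)⁻¹ : ℂˣ) : ℂ) = (Nat.card S : ℂ)⁻¹ * ∑ t, c t := by
      rw [finsum_eq_sum_of_fintype]
      have h1 : ∑ u : U, ind φ F u * (((l u)⁻¹ : ℂˣ) : ℂ)
          = ∑ u : U, (Nat.card S : ℂ)⁻¹ * ∑ t : G, ∑ p : S,
            if φ p = t⁻¹ * u * t then F p * l0 u else 0 := by
        refine Finset.sum_congr rfl fun u _ => ?_
        rw [← hl0 u]
        unfold ind
        rw [mul_assoc, Finset.sum_mul]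
        congr 1
        refine Finset.sum_congr rfl fun t _ => ?_
        rw [Finset.sum_mul]
        refine Finset.sum_congr rfl fun p _ => ?_
        rw [ite_mul, zero_mul]
      rw [h1, ← Finset.mul_sum]
      congr 1
      rw [Finset.sum_comm]
      refine Finset.sum_congr rfl fun t _ => ?_
      rw [Finset.sum_comm]
      refine Finset.sum_congr rfl fun p _ => ?_
      by_cases hp : t * φ p * t⁻¹ ∈ U
      · rw [Finset.sum_eq_single (⟨t * φ p * t⁻¹, hp⟩ : U)]
        · rw [if_pos]
          group
        · intro u _ hu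
          rw [if_neg]
          intro h2
          apply hu
          apply Subtype.ext
          change (u : G) = t * φ p * t⁻¹
          rw [h2]; group
        · intro h; exact absurd (Finset.mem_univ _) h
      · rw [hl0' _ hp, mul_zero]
        refine Finset.sum_eq_zero fun u _ => ?_
        rw [if_neg]
        intro h2
        apply hp
        rw [h2]
        have h3 : t * (t⁻¹ * (u : G) * t) * t⁻¹ = u := by group
        rw [h3]; exact u.2
    -- the action
    let _ : MulAction (U × S) G :=
      { smul := fun w t => w.1 * t * (φ w.2)⁻¹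
        one_smul := fun t => by
          change ((1 : U × S).1 : G) * t * (φ (1 : U × S).2)⁻¹ = t
          simp
        mul_smul := fun w w' t => by
          change ((w * w').1 : G) * t * (φ (w * w').2)⁻¹
            = w.1 * (w'.1 * t * (φ w'.2)⁻¹) * (φ w.2)⁻¹
          rw [Prod.snd_mul, Prod.fst_mul, map_mul, Subgroup.coe_mul]
          group }
    have hsmul : ∀ (w : U × S) (t : G), w • t = w.1 * t * (φ w.2)⁻¹ := fun _ _ => rfl
    have hcinv : ∀ (w : U × S) (t : G), c (w • t) = c t := by
      intro w t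
      change ∑ p : S, F p * l0 ((w • t) * φ p * (w • t)⁻¹) = ∑ p : S, F p * l0 (t * φ p * t⁻¹)
      rw [← Equiv.sum_comp (MulAut.conj w.2).toEquiv]
      refine Finset.sum_congr rfl fun p _ => ?_
      have h1 : (MulAut.conj w.2).toEquiv p = w.2 * p * w.2⁻¹ := rfl
      rw [h1, hF.conj, hsmul]
      congr 1
      have h2 : (w.1 * t * (φ w.2)⁻¹) * φ (w.2 * p * w.2⁻¹) * (w.1 * t * (φ w.2)⁻¹)⁻¹
          = w.1 * (t * φ p * t⁻¹) * (w.1 : G)⁻¹ := by
        rw [map_mul, map_mul, map_inv]; group
      rw [h2, hlc]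
    obtain ⟨m, hm⟩ := sum_orbits (W := U × S) c hcinv (fun t => by
      let V : Subgroup S := U.comap ((MulAut.conj t).toMonoidHom.comp φ)
      have hVm : ∀ p : S, p ∈ V ↔ t * φ p * t⁻¹ ∈ U := fun p => Iff.rfl
      have : Fintype V := Fintype.ofFinite _
      let ρ : V →* U :=
        { toFun := fun p => ⟨t * φ p * t⁻¹, p.2⟩
          map_one' := Subtype.ext (by simp)
          map_mul' := fun a b => Subtype.ext (by simp) }
      have hρ : Function.Injective ρ := by
        intro a b hab
        have h1 : t * φ (a : S) * t⁻¹ = t * φ (b : S) * t⁻¹ := congrArg Subtype.val hab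
        have h2 : φ (a : S) = φ (b : S) := mul_left_cancel (mul_right_cancel h1)
        exact Subtype.ext (hφ h2)
      have hVs : Group.IsSolvable V := Group.isSolvable_of_isSolvable_injective hρ
      obtain ⟨n, hn⟩ := hF.mult_hom hVs V.subtype (l.comp ρ)
      refine ⟨n, ?_⟩
      have hst : ∀ w : U × S, w ∈ MulAction.stabilizer (U × S) t ↔ t * φ w.2 * t⁻¹ = w.1 := by
        intro w
        rw [MulAction.mem_stabilizer_iff, hsmul, mul_inv_eq_iff_eq_mul, mul_inv_eq_iff_eq_mul]
        exact eq_comm
      have hcard : Nat.card (MulAction.stabilizer (U × S) t) = Nat.card V := by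
        symm
        refine Nat.card_congr
          { toFun := fun p => ⟨(ρ p, (p : S)), (hst _).mpr rfl⟩
            invFun := fun w => ⟨w.1.2, (hVm _).mpr (by rw [(hst _).mp w.2]; exact w.1.1.2)⟩
            left_inv := fun p => rfl
            right_inv := fun w => Subtype.ext (Prod.ext (Subtype.ext ((hst _).mp w.2)) rfl) }
      rw [hcard, ← hn]
      change ∑ p : S, F p * l0 (t * φ p * t⁻¹) = _
      have h1 : ∀ p : S, F p * l0 (t * φ p * t⁻¹) = if h : p ∈ V then
          F p * (((l (ρ ⟨p, h⟩))⁻¹ : ℂˣ) : ℂ) else 0 := by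
        intro p
        by_cases h : p ∈ V
        · rw [dif_pos h]
          congr 1
          exact hl0 (ρ ⟨p, h⟩)
        · rw [dif_neg h, hl0' _ (fun h' => h ((hVm p).mpr h')), mul_zero]
      rw [Finset.sum_congr rfl (fun p _ => h1 p), Finset.sum_dite, Finset.sum_const_zero, add_zero]
      refine Finset.sum_bij (fun x _ => (⟨x.1, (Finset.mem_filter.mp x.2).2⟩ : V)) ?_ ?_ ?_ ?_
      · intro x _; exact Finset.mem_univ _
      · intro x _ y _ hxy
        exact Subtype.ext (congrArg (fun z : V => (z : S)) hxy)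
      · intro y _
        exact ⟨⟨y.1, Finset.mem_filter.mpr ⟨Finset.mem_univ _, y.2⟩⟩, Finset.mem_attach _ _, rfl⟩
      · intro x _
        rfl)
    refine ⟨m, ?_⟩
    have hS : (Nat.card S : ℂ) ≠ 0 := by exact_mod_cast Nat.card_pos.ne'
    rw [hA, hm, Nat.card_prod]
    push_cast
    field_simp

end Pool.Agent.U93.T
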