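import Pool.Agent.U93.T.Pt
import Pool.Agent.U93.T.Ex

/-!
# Sums over subgroups, positivity on solvable subgroups only
-/

set_option autoImplicit false
set_option linter.unusedSectionVars false

namespace Pool.Agent.U93.T

open Equiv Equiv.Perm Pool.Agent.U93.S Pool.Agent.U93.L Pool.Agent.H302R2 Pool.Agent.H302R3
  Pool.Agent.U93.Q Pool.Agent.H541R3.ART Pool.Agent.R389

section sum

variable {α : Type} [Fintype α] [DecidableEq α] {G : Subgroup (Perm α)}

/-- sums over the subgroups -/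
theorem sum_shape (hG : alternatingGroup α ≤ G) {θ : G → ℂ}
    (hθ : IsSolHeilbronn θ) {r : ℕ} (hr : θ 1 = r)
    (hrk : Small (Fintype.card α) 2 r) (h12 : 12 ≤ Fintype.card α) :
    ∃ (c₁ c₂ : ℕ) (a₁ a₂ : ℂ), ∀ (M : Subgroup G) [Fintype M] (χ : M → ℂ),
      Van (Fintype.card α) M χ → ∑ h : M, θ h * χ h⁻¹ = ∑ h : M, (a₁ + a₂ * sn ((h : G) : Perm α)
      + (c₁ + c₂ * sn ((h : G) : Perm α)) * fx ((h : G) : Perm α)) * χ h⁻¹ := by
  classical
  obtain ⟨c₁, c₂, a₁, a₂, δ, hf⟩ := pt_sub G hG hθ hr hrk h12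
  refine ⟨c₁, c₂, a₁, a₂, fun M _ χ hV => ?_⟩
  set n := Fintype.card α with hn
  -- the vanishing for the inverse
  have hV' : ∀ C : Perm α, C.IsCycle → Exc n C.support.card →
      ∑ h : M, (if C ∈ ((h : G) : Perm α).cycleFactorsFinset then χ h⁻¹ else 0) = 0 ∧
      ∑ h : M, (if C ∈ ((h : G) : Perm α).cycleFactorsFinset then
        sn ((h : G) : Perm α) * χ h⁻¹ else 0) = 0 := by
    intro C hC hE
    obtain ⟨h1, h2⟩ := hV C⁻¹ hC.inv (by rw [support_inv]; exact hE)
    rw [finsum_eq_sum_of_fintype] at h1 h2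
    constructor
    · refine Eq.trans ?_ h1
      rw [← Equiv.sum_comp (Equiv.inv M)]
      refine Finset.sum_congr rfl fun h _ => ?_
      rw [Equiv.inv_apply, inv_inv]
      have h3 : (((h⁻¹ : M) : G) : Perm α) = ((h : G) : Perm α)⁻¹ := rfl
      rw [h3]
      by_cases h4 : C⁻¹ ∈ ((h : G) : Perm α).cycleFactorsFinset
      · rw [if_pos h4, if_pos (cyc_inv_iff.mpr h4)]
      · rw [if_neg h4, if_neg (fun h5 => h4 (cyc_inv_iff.mp h5))]
    · refine Eq.trans ?_ h2
      rw [← Equiv.sum_comp (Equiv.inv M)]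
      refine Finset.sum_congr rfl fun h _ => ?_
      rw [Equiv.inv_apply, inv_inv]
      have h3 : (((h⁻¹ : M) : G) : Perm α) = ((h : G) : Perm α)⁻¹ := rfl
      rw [h3, sn_inv]
      by_cases h4 : C⁻¹ ∈ ((h : G) : Perm α).cycleFactorsFinset
      · rw [if_pos h4, if_pos (cyc_inv_iff.mpr h4)]
      · rw [if_neg h4, if_neg (fun h5 => h4 (cyc_inv_iff.mp h5))]
  -- each term
  have hterm : ∀ h : M, θ h * χ h⁻¹ = (a₁ + a₂ * sn ((h : G) : Perm α)
      + (c₁ + c₂ * sn ((h : G) : Perm α)) * fx ((h : G) : Perm α)) * χ h⁻¹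
      + ec n δ ((h : G) : Perm α) * χ h⁻¹ := by
    intro h
    rcases hf (h : G) with h1 | ⟨h1, h2, h3⟩
    · rw [h1]; ring
    · have h4 := (hV' _ h1 h2).1
      rw [Finset.sum_eq_single h] at h4
      · rw [if_pos] at h4
        · rw [h4]; ring
        · rw [h1.cycleFactorsFinset_eq_singleton]
          exact Finset.mem_singleton_self _
      · intro h' _ hne
        rw [if_neg]
        intro h5
        apply hne
        have h6 := eq_of_long h5 h3
        exact Subtype.ext (Subtype.ext h6)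
      · intro h5
        exact absurd (Finset.mem_univ _) h5
  rw [Finset.sum_congr rfl (fun h _ => hterm h), Finset.sum_add_distrib]
  have hz : ∑ h : M, ec n δ ((h : G) : Perm α) * χ h⁻¹ = 0 := by
    have h1 : ∀ h : M, ec n δ ((h : G) : Perm α) * χ h⁻¹
        = ∑ C ∈ Finset.univ.filter (fun C : Perm α => C.IsCycle ∧ Exc n C.support.card),
          (if C ∈ ((h : G) : Perm α).cycleFactorsFinset then
            δ C.support.card (sign ((h : G) : Perm α) * sign C) * χ h⁻¹ else 0) := by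
      intro h
      rw [ec, Finset.sum_mul, ← Finset.sum_filter]
      have h2 : (Finset.univ.filter (fun C : Perm α => C.IsCycle ∧ Exc n C.support.card)).filter
          (fun C => C ∈ ((h : G) : Perm α).cycleFactorsFinset)
          = ((h : G) : Perm α).cycleFactorsFinset.filter (fun C => Exc n C.support.card) := by
        ext C
        simp only [Finset.mem_filter, Finset.mem_univ, true_and]
        constructor
        · rintro ⟨⟨-, h3⟩, h4⟩
          exact ⟨h4, h3⟩
        · rintro ⟨h3, h4⟩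
          exact ⟨⟨(mem_cycleFactorsFinset_iff.mp h3).1, h4⟩, h3⟩
      rw [h2, Finset.sum_filter]
      refine Finset.sum_congr rfl fun C _ => ?_
      split_ifs
      · rfl
      · simp
    rw [Finset.sum_congr rfl (fun h _ => h1 h), Finset.sum_comm]
    refine Finset.sum_eq_zero fun C hC => ?_
    obtain ⟨hC1, hC2⟩ := (Finset.mem_filter.mp hC).2
    obtain ⟨e1, e2⟩ := hV' C hC1 hC2
    have h2 : ∀ h : M, (if C ∈ ((h : G) : Perm α).cycleFactorsFinset then
        δ C.support.card (sign ((h : G) : Perm α) * sign C) * χ h⁻¹ else 0)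
        = (δ C.support.card 1 + δ C.support.card (-1)) / 2
          * (if C ∈ ((h : G) : Perm α).cycleFactorsFinset then χ h⁻¹ else 0)
        + (δ C.support.card 1 - δ C.support.card (-1)) / 2 * sn C
          * (if C ∈ ((h : G) : Perm α).cycleFactorsFinset then
            sn ((h : G) : Perm α) * χ h⁻¹ else 0) := by
      intro h
      split_ifs
      · have h3 : sn C * sn ((h : G) : Perm α)
            = ((sign ((h : G) : Perm α) * sign C : ℤˣ) : ℤ) := by
          unfold sn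
          push_cast
          ring
        have h4 : (δ C.support.card 1 - δ C.support.card (-1)) / 2 * sn C
            * (sn ((h : G) : Perm α) * χ h⁻¹)
            = (δ C.support.card 1 - δ C.support.card (-1)) / 2
              * (sn C * sn ((h : G) : Perm α)) * χ h⁻¹ := by ring
        rw [h4, h3]
        rcases Int.units_eq_one_or (sign ((h : G) : Perm α) * sign C) with h5 | h5
        · rw [h5]; push_cast; ring
        · rw [h5]; push_cast; ring
      · simp
    rw [Finset.sum_congr rfl (fun h _ => h2 h), Finset.sum_add_distrib, ← Finset.mul_sum,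
      ← Finset.mul_sum, e1, e2, mul_zero, mul_zero, add_zero]
  rw [hz, add_zero]

end sum

section pair

variable {α : Type} [Fintype α] [DecidableEq α]

lemma pair_of_sum {M : Type} [Group M] [Finite M] [Fintype M] (φ : M →* Perm α) {θ : M → ℂ}
    {χ : M → ℂ} (hone : (χ = fun _ => 1) → ∃ k : ℝ, 0 ≤ k ∧ ∑ h : M, θ h = k)
    (hsgn : (χ = fun h => sn (φ h)) → ∃ k : ℝ, 0 ≤ k ∧ ∑ h : M, θ h * sn (φ h) = k) (hχ : χ ∈ Irr M) (c₁ c₂ : ℕ) (a₁ a₂ : ℂ)
    (hsum : ∑ h : M, θ h * χ h⁻¹
      = ∑ h : M, (a₁ + a₂ * sn (φ h) + (c₁ + c₂ * sn (φ h)) * fx (φ h)) * χ h⁻¹) :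
    (∃ k : ℝ, 0 ≤ k ∧ ∑ h : M, θ h * χ h⁻¹ = k) ∧
    ((χ ≠ fun _ => 1) → (χ ≠ fun h : M => sn (φ h)) → ∑ h : M, (fx (φ h) : ℂ) * χ h = 0 →
      ∑ h : M, sn (φ h) * (fx (φ h) : ℂ) * χ h = 0 → ∑ h : M, θ h * χ h⁻¹ = 0) := by
  classical
  let ψ : M →* ℂˣ := sgH.comp φ
  have h1I : (fun _ : M => (1 : ℂ)) ∈ Irr M := by
    have h := lin_irr (1 : M →* ℂˣ)
    simpa using h
  have hψI : (fun h : M => sn (φ h)) ∈ Irr M := lin_irr ψ
  have hgen : (χ ≠ fun _ => 1) → (χ ≠ fun h : M => sn (φ h)) → ∑ h : M, θ h * χ h⁻¹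
      = c₁ * ∑ h : M, (fx (φ h) : ℂ) * χ h⁻¹
        + c₂ * ∑ h : M, sn (φ h) * (fx (φ h) : ℂ) * χ h⁻¹ := by
    intro h1 h2
    have e1 := pair_ne h1I hχ (Ne.symm h1)
    have e2 := pair_ne hψI hχ (Ne.symm h2)
    have e3 : ∀ h : M, (a₁ + a₂ * sn (φ h) + (c₁ + c₂ * sn (φ h)) * fx (φ h)) * χ h⁻¹
        = a₁ * (1 * χ h⁻¹) + a₂ * (sn (φ h) * χ h⁻¹)
        + c₁ * ((fx (φ h) : ℂ) * χ h⁻¹) + c₂ * (sn (φ h) * (fx (φ h) : ℂ) * χ h⁻¹) := by
      intro h
      ring
    rw [hsum, Finset.sum_congr rfl (fun h _ => e3 h), Finset.sum_add_distrib,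
      Finset.sum_add_distrib, Finset.sum_add_distrib, ← Finset.mul_sum (a := a₁),
      ← Finset.mul_sum (a := a₂), ← Finset.mul_sum (a := (c₁ : ℂ)),
      ← Finset.mul_sum (a := (c₂ : ℂ)), e1, e2]
    ring
  constructor
  · by_cases h1 : χ = fun _ => 1
    · obtain ⟨k, hk0, hk⟩ := hone h1
      refine ⟨k, hk0, ?_⟩
      rw [← hk, h1]
      simp
    by_cases h2 : χ = fun h : M => sn (φ h)
    · obtain ⟨k, hk0, hk⟩ := hsgn h2
      refine ⟨k, hk0, ?_⟩
      rw [← hk, h2]
      refine Finset.sum_congr rfl fun h _ => ?_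
      change θ h * sn (φ h⁻¹) = _
      rw [map_inv, sn_inv]
    · rw [hgen h1 h2]
      obtain ⟨k, hk0, hk⟩ := fix_pair φ hχ 1
      obtain ⟨l, hl0, hl⟩ := fix_pair φ hχ ψ
      refine ⟨c₁ * k + c₂ * l, by positivity, ?_⟩
      push_cast
      rw [← hk, ← hl]
      simp only [MonoidHom.one_apply, Units.val_one, one_mul]
      rfl
  · intro h1 h2 h3 h4
    rw [hgen h1 h2]
    have e1 : ∑ h : M, (fx (φ h) : ℂ) * χ h⁻¹ = 0 := by
      rw [← h3, ← Equiv.sum_comp (Equiv.inv M)]
      refine Finset.sum_congr rfl fun h _ => ?_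
      rw [Equiv.inv_apply, inv_inv, map_inv, fx_inv]
    have e2 : ∑ h : M, sn (φ h) * (fx (φ h) : ℂ) * χ h⁻¹ = 0 := by
      rw [← h4, ← Equiv.sum_comp (Equiv.inv M)]
      refine Finset.sum_congr rfl fun h _ => ?_
      rw [Equiv.inv_apply, inv_inv, map_inv, fx_inv, sn_inv]
    rw [e1, e2, mul_zero, mul_zero, add_zero]

end pair

section burnside

variable {α : Type} [Fintype α] [DecidableEq α] {V : Type} [Group V] [Fintype V]
  (φ : V →* Perm α)

lemma sum_fx_eq : ∃ t : ℕ, (Nonempty α → 1 ≤ t) ∧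
    ((∀ x y, ∃ h, φ h x = y) → t ≤ 1) ∧ ∑ h : V, fx (φ h) = t * Fintype.card V := by
  classical
  let _ : MulAction V α := MulAction.compHom α φ
  have hsm : ∀ (h : V) (x : α), h • x = φ h x := fun _ _ => rfl
  have : Fintype (Quotient (MulAction.orbitRel V α)) := Fintype.ofFinite _
  have hb := MulAction.sum_card_fixedBy_eq_card_orbits_mul_card_group V α
  refine ⟨Fintype.card (Quotient (MulAction.orbitRel V α)), ?_, ?_, ?_⟩
  · rintro ⟨x⟩
    exact Fintype.card_pos_iff.mpr ⟨Quotient.mk _ x⟩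
  · intro htr
    rw [Fintype.card_le_one_iff_subsingleton]
    refine ⟨fun p q => ?_⟩
    induction p using Quotient.inductionOn with
    | _ x =>
      induction q using Quotient.inductionOn with
      | _ y =>
        refine Quotient.sound ?_
        obtain ⟨h, hh⟩ := htr y x
        exact ⟨h, hh⟩
  · rw [← hb]
    refine Finset.sum_congr rfl fun h _ => ?_
    unfold fx
    rw [Fintype.card_subtype]
    rfl

lemma sum_sn_zero {o : V} (ho : sign (φ o) = -1) : ∑ h : V, sn (φ h) = 0 := by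
  have h1 : ∑ h : V, sn (φ h) = - ∑ h : V, sn (φ h) := by
    conv_lhs => rw [← Equiv.sum_comp (Equiv.mulLeft o)]
    rw [← Finset.sum_neg_distrib]
    refine Finset.sum_congr rfl fun h _ => ?_
    rw [Equiv.coe_mulLeft, map_mul]
    unfold sn
    rw [map_mul, ho]
    push_cast
    ring
  have h2 : (2 : ℂ) * ∑ h : V, sn (φ h) = 0 := by linear_combination h1
  simpa using h2

lemma sum_snfx_zero (ho : ∀ x, ∃ o, φ o x = x ∧ sign (φ o) = -1) :
    ∑ h : V, sn (φ h) * (fx (φ h) : ℂ) = 0 := by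
  classical
  have h0 : ∀ h : V, sn (φ h) * (fx (φ h) : ℂ) = ∑ x : α, if φ h x = x then sn (φ h) else 0 := by
    intro h
    unfold fx
    rw [← Finset.sum_filter, Finset.sum_const, nsmul_eq_mul, mul_comm]
  rw [Finset.sum_congr rfl fun h _ => h0 h, Finset.sum_comm]
  refine Finset.sum_eq_zero fun x _ => ?_
  obtain ⟨o, hox, hos⟩ := ho x
  have h1 : ∑ h : V, (if φ h x = x then sn (φ h) else 0)
      = - ∑ h : V, (if φ h x = x then sn (φ h) else 0) := by
    conv_lhs => rw [← Equiv.sum_comp (Equiv.mulRight o)]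
    rw [← Finset.sum_neg_distrib]
    refine Finset.sum_congr rfl fun h _ => ?_
    rw [Equiv.coe_mulRight, map_mul, Perm.mul_apply, hox]
    split_ifs
    · unfold sn
      rw [map_mul, hos]
      push_cast
      ring
    · simp
  have h2 : (2 : ℂ) * ∑ h : V, (if φ h x = x then sn (φ h) else 0) = 0 := by
    linear_combination h1
  simpa using h2

end burnside

section pos

variable {α : Type} [Fintype α] [DecidableEq α] {G : Subgroup (Perm α)}

lemma odd_or_even {M : Type} [Group M] (φ : M →* Perm α) :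
    (∃ o, sign (φ o) = -1) ∨ ∀ h, sn (φ h) = 1 := by
  by_cases h : ∃ o, sign (φ o) = -1
  · exact Or.inl h
  · right
    intro g
    push Not at h
    unfold sn
    rcases Int.units_eq_one_or (sign (φ g)) with h1 | h1
    · rw [h1]; norm_num
    · exact absurd h1 (h g)

lemma snfx_nonneg {M : Type} [Group M] [Fintype M] (φ : M →* Perm α) :
    ∃ l : ℝ, 0 ≤ l ∧ ∑ h : M, sn (φ h) * (fx (φ h) : ℂ) = l := by
  have h1I : (fun _ : M => (1 : ℂ)) ∈ Irr M := by
    have h := lin_irr (1 : M →* ℂˣ)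
    simpa using h
  obtain ⟨l, hl0, hl⟩ := fix_pair φ h1I (sgH.comp φ)
  refine ⟨l, hl0, ?_⟩
  rw [← hl]
  refine Finset.sum_congr rfl fun h _ => ?_
  rw [mul_one]
  rfl

/-- the sum of the shape function -/
lemma shape_sum {M : Type} [Group M] [Fintype M] (φ : M →* Perm α) (c₁ c₂ : ℕ) (a₁ a₂ : ℂ) :
    ∑ h : M, (a₁ + a₂ * sn (φ h) + (c₁ + c₂ * sn (φ h)) * fx (φ h))
      = a₁ * Fintype.card M + a₂ * ∑ h : M, sn (φ h) + c₁ * ∑ h : M, (fx (φ h) : ℂ)
        + c₂ * ∑ h : M, sn (φ h) * (fx (φ h) : ℂ) := by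
  have h1 : ∀ h : M, (a₁ + a₂ * sn (φ h) + (c₁ + c₂ * sn (φ h)) * fx (φ h))
      = a₁ + a₂ * sn (φ h) + c₁ * (fx (φ h) : ℂ) + c₂ * (sn (φ h) * (fx (φ h) : ℂ)) := by
    intro h; ring
  rw [Finset.sum_congr rfl fun h _ => h1 h, Finset.sum_add_distrib, Finset.sum_add_distrib,
    Finset.sum_add_distrib, ← Finset.mul_sum, ← Finset.mul_sum, ← Finset.mul_sum,
    Finset.sum_const, Finset.card_univ, nsmul_eq_mul]
  ring

lemma shape_sum_sn {M : Type} [Group M] [Fintype M] (φ : M →* Perm α) (c₁ c₂ : ℕ) (a₁ a₂ : ℂ) :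
    ∑ h : M, (a₁ + a₂ * sn (φ h) + (c₁ + c₂ * sn (φ h)) * fx (φ h)) * sn (φ h)
      = a₂ * Fintype.card M + a₁ * ∑ h : M, sn (φ h) + c₂ * ∑ h : M, (fx (φ h) : ℂ)
        + c₁ * ∑ h : M, sn (φ h) * (fx (φ h) : ℂ) := by
  rw [← shape_sum φ c₂ c₁ a₂ a₁]
  refine Finset.sum_congr rfl fun h _ => ?_
  have h2 := sn_sq (φ h)
  linear_combination (a₂ + c₂ * fx (φ h)) * h2

/-- the positivity at the trivial character and the sign -/
theorem pos_lin (hG : alternatingGroup α ≤ G) {θ : G → ℂ} (hθ : IsSolHeilbronn θ)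
    (h12 : 12 ≤ Fintype.card α) (hp : ¬ (Fintype.card α).Prime)
    (h2p : ∀ p : ℕ, p.Prime → Fintype.card α ≠ 2 * p) {c₁ c₂ : ℕ} {a₁ a₂ : ℂ}
    (hs : ∀ (M : Subgroup G) [Fintype M] (χ : M → ℂ),
      Van (Fintype.card α) M χ → ∑ h : M, θ h * χ h⁻¹ = ∑ h : M, (a₁ + a₂ * sn ((h : G) : Perm α)
      + (c₁ + c₂ * sn ((h : G) : Perm α)) * fx ((h : G) : Perm α)) * χ h⁻¹)
    (M : Subgroup G) [Fintype M] :
    (Van (Fintype.card α) M (fun _ => 1) → ∃ k : ℝ, 0 ≤ k ∧ ∑ h : M, θ h = k) ∧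
    (Van (Fintype.card α) M (fun h => sn ((h : G) : Perm α)) →
      ∃ k : ℝ, 0 ≤ k ∧ ∑ h : M, θ h * sn ((h : G) : Perm α) = k) := by
  classical
  have hne : Nonempty α := Fintype.card_pos_iff.mp (by omega)
  obtain ⟨W, hWs, hWt, hWo, hWe⟩ := exists_nice h12 hp h2p
  let V : Subgroup G := W.comap G.subtype
  have hVW : ∀ v : V, ((v : G) : Perm α) ∈ W := fun v => v.2
  have hVs : Group.IsSolvable V := by
    let ρ : V →* W := (G.subtype.comp V.subtype).codRestrict W hVW
    have hρ : Function.Injective ρ := by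
      intro a b hab
      have h1 : ((a : G) : Perm α) = ((b : G) : Perm α) := by
        have h2 := congrArg (fun w : W => (w : Perm α)) hab
        exact h2
      exact Subtype.ext (Subtype.ext h1)
    exact Group.isSolvable_of_isSolvable_injective hρ
  have : Fintype V := Fintype.ofFinite V
  have hVf : ∀ χ : V → ℂ, Van (Fintype.card α) V χ := fun χ =>
    van_of_free χ fun h hh l hl => hWe _ hh l hl
  have hcV : (Fintype.card V : ℂ) ≠ 0 := by
    exact_mod_cast Fintype.card_ne_zero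
  have hcM : (0 : ℝ) ≤ (Fintype.card M : ℝ) := by positivity
  let φ : V →* Perm α := G.subtype.comp V.subtype
  let φM : M →* Perm α := G.subtype.comp M.subtype
  -- transitivity
  have hVt : ∀ x y, ∃ h, φ h x = y := by
    intro x y
    obtain ⟨g, hg, hgx⟩ := hWt x y
    by_cases hgG : g ∈ G
    · exact ⟨⟨⟨g, hgG⟩, hg⟩, hgx⟩
    · obtain ⟨o, ho, hox, hos⟩ := hWo x
      have hsg : sign g = -1 := by
        rcases Int.units_eq_one_or (sign g) with h1 | h1
        · exact absurd (hG (mem_alternatingGroup.mpr h1)) hgG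
        · exact h1
      have h2 : g * o ∈ G := hG (mem_alternatingGroup.mpr (by rw [map_mul, hsg, hos]; rfl))
      exact ⟨⟨⟨g * o, h2⟩, W.mul_mem hg ho⟩, by
        change (g * o) x = y
        rw [Perm.mul_apply, hox, hgx]⟩
  obtain ⟨t, ht1, ht2, ht⟩ := sum_fx_eq φ
  have htt : t = 1 := le_antisymm (ht2 hVt) (ht1 hne)
  have hfV : ∑ h : V, (fx (φ h) : ℂ) = Fintype.card V := by
    rw [htt, one_mul] at ht
    exact_mod_cast ht
  obtain ⟨k₁, hk₁⟩ := hθ.mult V hVs 1
  have e1 : ∑ h : V, θ h = k₁ * Fintype.card V := by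
    rw [finsum_eq_sum_of_fintype, Nat.card_eq_fintype_card] at hk₁
    simpa using hk₁
  have f1 : ∑ h : V, θ h = ∑ h : V, (a₁ + a₂ * sn (φ h) + (c₁ + c₂ * sn (φ h)) * fx (φ h)) := by
    have h1 := hs V (fun _ => 1) (hVf _)
    simp only [mul_one] at h1
    exact h1
  rw [e1, shape_sum φ] at f1
  -- the group `M`
  obtain ⟨tM, htM1, -, htM⟩ := sum_fx_eq φM
  have htM0 := htM1 hne
  have hfM : ∑ h : M, (fx (φM h) : ℂ) = tM * Fintype.card M := by
    exact_mod_cast htM
  have hM1 : Van (Fintype.card α) M (fun _ => 1) → ∑ h : M, θ h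
      = a₁ * Fintype.card M + a₂ * ∑ h : M, sn (φM h) + c₁ * ∑ h : M, (fx (φM h) : ℂ)
        + c₂ * ∑ h : M, sn (φM h) * (fx (φM h) : ℂ) := by
    intro hV
    have h1 := hs M (fun _ => 1) hV
    simp only [mul_one] at h1
    rw [h1]
    exact shape_sum φM c₁ c₂ a₁ a₂
  have hM2 : Van (Fintype.card α) M (fun h => sn ((h : G) : Perm α)) →
      ∑ h : M, θ h * sn ((h : G) : Perm α)
      = a₂ * Fintype.card M + a₁ * ∑ h : M, sn (φM h) + c₂ * ∑ h : M, (fx (φM h) : ℂ)
        + c₁ * ∑ h : M, sn (φM h) * (fx (φM h) : ℂ) := by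
    intro hV
    have h1 := hs M (fun h => sn ((h : G) : Perm α)) hV
    have h2 : ∀ h : M, sn (((h⁻¹ : M) : G) : Perm α) = sn ((h : G) : Perm α) := by
      intro h
      exact sn_inv ((h : G) : Perm α)
    simp only [h2] at h1
    rw [h1]
    exact shape_sum_sn φM c₁ c₂ a₁ a₂
  have hr0 : (0 : ℝ) ≤ (tM : ℝ) - 1 := by
    have : (1 : ℝ) ≤ tM := by exact_mod_cast htM0
    linarith
  rcases odd_or_even φ with ⟨o, ho⟩ | hall
  · -- the symmetric group
    have hodd : ∀ x, ∃ o, φ o x = x ∧ sign (φ o) = -1 := by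
      have htop : ∀ g : Perm α, g ∈ G := by
        intro g
        rcases Int.units_eq_one_or (sign g) with h1 | h1
        · exact hG (mem_alternatingGroup.mpr h1)
        · have h2 : g * (φ o)⁻¹ ∈ G := hG (mem_alternatingGroup.mpr (by
            rw [map_mul, map_inv, h1, ho]; rfl))
          have h3 := G.mul_mem h2 (show φ o ∈ G from (o : G).2)
          rwa [inv_mul_cancel_right] at h3
      intro x
      obtain ⟨w, hw, hwx, hws⟩ := hWo x
      exact ⟨⟨⟨w, htop w⟩, hw⟩, hwx, hws⟩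
    rw [sum_sn_zero φ ho, sum_snfx_zero φ hodd, hfV] at f1
    have g1 : a₁ = k₁ - c₁ := by
      have h1 : (a₁ + c₁ - k₁) * (Fintype.card V : ℂ) = 0 := by linear_combination -f1
      have h2 := (mul_eq_zero.mp h1).resolve_right hcV
      linear_combination h2
    obtain ⟨k₂, hk₂⟩ := hθ.mult V hVs (sgH.comp φ)
    have e2 : ∑ h : V, θ h * sn (φ h) = k₂ * Fintype.card V := by
      rw [finsum_eq_sum_of_fintype, Nat.card_eq_fintype_card] at hk₂
      rw [← hk₂]
      refine Finset.sum_congr rfl fun h _ => ?_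
      rw [← map_inv]
      congr 1
      exact (sn_inv (φ h)).symm
    have f2 : ∑ h : V, θ h * sn (φ h)
        = ∑ h : V, (a₁ + a₂ * sn (φ h) + (c₁ + c₂ * sn (φ h)) * fx (φ h)) * sn (φ h) := by
      have h1 := hs V (fun h => sn ((h : G) : Perm α)) (hVf _)
      have h2 : ∀ h : V, sn (((h⁻¹ : V) : G) : Perm α) = sn ((h : G) : Perm α) := by
        intro h
        exact sn_inv ((h : G) : Perm α)
      simp only [h2] at h1
      exact h1
    rw [e2, shape_sum_sn φ, sum_sn_zero φ ho, sum_snfx_zero φ hodd, hfV] at f2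
    have g2 : a₂ = k₂ - c₂ := by
      have h1 : (a₂ + c₂ - k₂) * (Fintype.card V : ℂ) = 0 := by linear_combination -f2
      have h2 := (mul_eq_zero.mp h1).resolve_right hcV
      linear_combination h2
    obtain ⟨l, hl0, hl⟩ := snfx_nonneg φM
    rcases odd_or_even φM with ⟨oM, hoM⟩ | hMe
    · constructor
      · intro hV
        refine ⟨(k₁ + c₁ * (tM - 1)) * Fintype.card M + c₂ * l, by positivity, ?_⟩
        rw [hM1 hV, sum_sn_zero φM hoM, hfM, hl, g1]
        push_cast
        ring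
      · intro hV
        refine ⟨(k₂ + c₂ * (tM - 1)) * Fintype.card M + c₁ * l, by positivity, ?_⟩
        rw [hM2 hV, sum_sn_zero φM hoM, hfM, hl, g2]
        push_cast
        ring
    · have hsnM : ∑ h : M, sn (φM h) = Fintype.card M := by
        rw [Finset.sum_congr rfl fun h _ => hMe h]
        simp
      have hsfM : ∑ h : M, sn (φM h) * (fx (φM h) : ℂ) = tM * Fintype.card M := by
        rw [← hfM]
        refine Finset.sum_congr rfl fun h _ => ?_
        rw [hMe h, one_mul]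
      constructor
      · intro hV
        refine ⟨(k₁ + k₂ + (c₁ + c₂) * (tM - 1)) * Fintype.card M, by positivity, ?_⟩
        rw [hM1 hV, hsnM, hfM, hsfM, g1, g2]
        push_cast
        ring
      · intro hV
        refine ⟨(k₁ + k₂ + (c₁ + c₂) * (tM - 1)) * Fintype.card M, by positivity, ?_⟩
        rw [hM2 hV, hsnM, hfM, hsfM, g1, g2]
        push_cast
        ring
  · -- the alternating group
    have hsnV : ∑ h : V, sn (φ h) = Fintype.card V := by
      rw [Finset.sum_congr rfl fun h _ => hall h]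
      simp
    have hsfV : ∑ h : V, sn (φ h) * (fx (φ h) : ℂ) = Fintype.card V := by
      rw [← hfV]
      refine Finset.sum_congr rfl fun h _ => ?_
      rw [hall h, one_mul]
    rw [hsnV, hsfV, hfV] at f1
    have g1 : a₁ + a₂ = k₁ - c₁ - c₂ := by
      have h1 : (a₁ + a₂ + c₁ + c₂ - k₁) * (Fintype.card V : ℂ) = 0 := by linear_combination -f1
      have h2 := (mul_eq_zero.mp h1).resolve_right hcV
      linear_combination h2
    have hGA : ∀ g : G, sn (g : Perm α) = 1 := by
      intro g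
      by_contra hcon
      have hsg : sign (g : Perm α) = -1 := by
        rcases Int.units_eq_one_or (sign (g : Perm α)) with h1 | h1
        · exfalso
          apply hcon
          unfold sn
          rw [h1]; norm_num
        · exact h1
      obtain ⟨x⟩ := hne
      obtain ⟨w, hw, -, hws⟩ := hWo x
      have h2 : w * (g : Perm α)⁻¹ ∈ G := hG (mem_alternatingGroup.mpr (by
        rw [map_mul, map_inv, hws, hsg]; rfl))
      have h3 := G.mul_mem h2 g.2
      rw [inv_mul_cancel_right] at h3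
      have h4 := hall ⟨⟨w, h3⟩, hw⟩
      change sn w = 1 at h4
      unfold sn at h4
      rw [hws] at h4
      norm_num at h4
    have hsnM : ∑ h : M, sn (φM h) = Fintype.card M := by
      rw [Finset.sum_congr rfl fun (h : M) _ => show sn (φM h) = 1 from hGA (h : G)]
      simp
    have hsfM : ∑ h : M, sn (φM h) * (fx (φM h) : ℂ) = tM * Fintype.card M := by
      rw [← hfM]
      refine Finset.sum_congr rfl fun h _ => ?_
      rw [show sn (φM h) = 1 from hGA (h : G), one_mul]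
    constructor
    · intro hV
      refine ⟨(k₁ + (c₁ + c₂) * (tM - 1)) * Fintype.card M, by positivity, ?_⟩
      rw [hM1 hV, hsnM, hfM, hsfM]
      push_cast
      linear_combination (Fintype.card M : ℂ) * g1
    · intro hV
      refine ⟨(k₁ + (c₁ + c₂) * (tM - 1)) * Fintype.card M, by positivity, ?_⟩
      rw [hM2 hV, hsnM, hfM, hsfM]
      push_cast
      linear_combination (Fintype.card M : ℂ) * g1

end pos

end Pool.Agent.U93.T
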