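import Pool.Agent.U93.T.Alt

/-!
# The structure theorem for functions which are nonnegative on the solvable subgroups
-/

set_option autoImplicit false
set_option linter.unusedSectionVars false

namespace Pool.Agent.U93.T

open Equiv Equiv.Perm Pool.Agent.U93.S Pool.Agent.U93.L Pool.Agent.H302R2 Pool.Agent.H302R3
  Pool.Agent.U93.Q

section pt

variable {α : Type} [Fintype α] [DecidableEq α] {θ : alternatingGroup α → ℂ}

/-- sums over the symmetric group -/
lemma sum_full {F : Perm α → ℂ} (hF : IsSolHeilbronn F) (hN : NilZ (Fin 2) F)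
    (h12 : 12 ≤ Fintype.card α) : ∃ (c₁ c₂ : ℕ) (a₁ a₂ : ℂ),
    (gam (fF F) (-1) = 0 → c₁ = c₂) ∧
    a₁ - a₂ = fF F {2} + 2 * gam (fF F) (-1) - gam (fF F) (-1) * Fintype.card α ∧
    ∀ X : Perm α → ℂ, CosE (Fintype.card α) X → ∑ g : Perm α, F g * X g⁻¹
      = ∑ g : Perm α, (a₁ + a₂ * sn g + (c₁ + c₂ * sn g) * fx g) * X g⁻¹ := by
  classical
  obtain ⟨c₁, c₂, h1, h2⟩ := slopes hF (by omega)
  obtain ⟨a₁, a₂, ha, hf⟩ := full_formula (rel_of_nil hF hN) h12
  refine ⟨c₁, c₂, a₁, a₂, ?_, ha, fun X hX => ?_⟩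
  · intro h
    rw [h] at h1 h2
    have h3 : (c₁ : ℂ) = c₂ := by rw [← h1, ← h2]; ring
    exact_mod_cast h3
  · have h3 := marked_zero (n := Fintype.card α) (dl (nor (fF F))) hX.inv
    have h4 : ∀ g : Perm α, F g * X g⁻¹
        = (a₁ + a₂ * sn g + (c₁ + c₂ * sn g) * fx g) * X g⁻¹
          + (∑ C ∈ g.cycleFactorsFinset, if Exc (Fintype.card α) C.support.card then
        dl (nor (fF F)) C.support.card (sign g * sign C) else 0) * X g⁻¹ := by
      intro g
      rw [← fF_eq hF.conj g, hf g, h1, h2]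
      ring
    rw [Finset.sum_congr rfl (fun g _ => h4 g), Finset.sum_add_distrib, h3, add_zero]

lemma pt_sym {F : Perm α → ℂ} (hF : IsSolHeilbronn F) (hN : NilZ (Fin 2) F)
    (h12 : 12 ≤ Fintype.card α) : ∃ (c₁ c₂ : ℕ) (a₁ a₂ : ℂ) (δ : ℕ → ℤˣ → ℂ),
    ∀ g, F g = a₁ + a₂ * sn g + (c₁ + c₂ * sn g) * fx g + ec (Fintype.card α) δ g := by
  obtain ⟨c₁, c₂, h1, h2⟩ := slopes hF (by omega)
  obtain ⟨a₁, a₂, -, hf⟩ := full_formula (rel_of_nil hF hN) h12
  refine ⟨c₁, c₂, a₁, a₂, dl (nor (fF F)), fun g => ?_⟩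
  rw [← fF_eq hF.conj g, hf g, h1, h2]
  rfl

lemma inv_all' (hθ : IsSolHeilbronn θ) {r : ℕ} (hr : θ 1 = r)
    (hrk : Small (Fintype.card α) 2 r) (h12 : 12 ≤ Fintype.card α) {g : Perm α}
    (hg : g ∈ alternatingGroup α) :
    Inv θ g ∨ (g.IsCycle ∧ Exc (Fintype.card α) g.support.card
      ∧ Fintype.card α ≤ g.support.card + 1) := by
  classical
  by_cases hexc : ∀ x ∈ g.cycleType, ¬ Exc (Fintype.card α) x
  · exact Or.inl (inv_all hθ hr hrk h12 hg hexc)
  by_cases hc : Subgroup.centralizer {g} ≤ alternatingGroup α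
  swap
  · exact Or.inl (inv_of_cent hθ hc)
  have h1 := card_le_of_centralizer_le_alternating hc
  have hodd := OnCycleFactors.odd_of_centralizer_le_alternatingGroup hc
  obtain ⟨l, hl, hle⟩ : ∃ l, l ∈ g.cycleType ∧ Exc (Fintype.card α) l := by
    push Not at hexc
    exact hexc
  have hlo := hodd l hl
  obtain ⟨c, τ, hgc, hd, hcc, hcl⟩ := mem_cycleType_iff.mp hl
  have hsum : c.support.card + τ.support.card ≤ Fintype.card α := by
    rw [← hd.card_support_mul]
    exact Finset.card_le_univ _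
  have hl2 : 2 ≤ l := two_le_of_mem_cycleType hl
  have hsc : sign c = 1 := by
    rw [hcc.sign, hcl, hlo.neg_one_pow, neg_neg]
  have hsg : sign g = 1 := mem_alternatingGroup.mp hg
  have hst : sign τ = 1 := by
    rw [hgc, map_mul, hsc, one_mul] at hsg
    exact hsg
  by_cases hτ : τ = 1
  · rw [hτ, mul_one] at hgc
    have hct : g.cycleType = {l} := by rw [hgc, hcc.cycleType, hcl]
    rw [hct, Multiset.sum_singleton] at h1
    right
    rw [hgc, hcl]
    exact ⟨hcc, hle, h1⟩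
  · left
    have h2 := two_le_supp hτ
    rw [hgc]
    refine inv_mul hθ hr hrk (mem_alternatingGroup.mpr hsc) (mem_alternatingGroup.mpr hst) hd
      (inv_of_cent hθ fun h3 => ?_) (inv_of_cent hθ fun h3 => ?_)
    · have h4 := card_le_of_centralizer_le_alternating h3
      rw [sum_cycleType] at h4
      omega
    · have h4 := card_le_of_centralizer_le_alternating h3
      rw [sum_cycleType] at h4
      omega

lemma pt_alt (hθ : IsSolHeilbronn θ) {r : ℕ} (hr : θ 1 = r)
    (hrk : Small (Fintype.card α) 2 r) (h12 : 12 ≤ Fintype.card α) :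
    ∃ (c₁ c₂ : ℕ) (a₁ a₂ : ℂ) (δ : ℕ → ℤˣ → ℂ), ∀ g : alternatingGroup α,
      θ g = a₁ + a₂ * sn (g : Perm α) + (c₁ + c₂ * sn (g : Perm α)) * fx (g : Perm α)
        + ec (Fintype.card α) δ (g : Perm α) ∨
      ((g : Perm α).IsCycle ∧ Exc (Fintype.card α) (g : Perm α).support.card
        ∧ Fintype.card α ≤ (g : Perm α).support.card + 1) := by
  have hnt : Nontrivial α := by
    rw [← Fintype.one_lt_card_iff_nontrivial]
    omega
  have hF := av_heil hθ
  have hN := av_nilZ hθ hr hrk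
  obtain ⟨c₁, c₂, a₁, a₂, hc, ha, -⟩ := sum_full hF hN h12
  obtain ⟨c₁', c₂', h1, h2⟩ := slopes hF (by omega)
  obtain ⟨b₁, b₂, hb, hf⟩ := full_formula (rel_of_nil hF hN) h12
  have hz : ∀ s : Multiset ℕ, sg s = -1 → fF (av θ) s = 0 := by
    intro s hs
    unfold fF
    by_cases h : ∃ g : Perm α, g.cycleType = s
    · rw [dif_pos h]
      apply av_odd
      rw [mem_alternatingGroup, sg_cycleType, h.choose_spec, hs]
      decide
    · exact dif_neg h
  have hgm : gam (fF (av θ)) (-1) = 0 := by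
    have h3 : gam (fF (av θ)) (-1) = (fF (av θ) {2} - fF (av θ) ({2, 2} + {2})) / 4 :=
      if_neg (by decide)
    rw [h3, hz _ sg_two, hz _ (by rw [sg_add, sg_two_two, sg_zero, sg_two, one_mul])]
    simp
  rw [hgm] at h1
  refine ⟨c₁', 0, (b₁ + b₂) / 2, 0, fun l e => dl (nor (fF (av θ))) l e / 2, fun g => ?_⟩
  rcases inv_all' hθ hr hrk h12 g.2 with h3 | h3
  · left
    have h4 := hf (g : Perm α)
    rw [fF_eq hF.conj, av_inv h3, ext0_mem g.2, hgm] at h4
    have hs : sn (g : Perm α) = 1 := by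
      unfold sn
      rw [mem_alternatingGroup.mp g.2]
      simp
    rw [ec_div, hs, ← h1]
    rw [hs] at h4
    have h5 : θ ⟨(g : Perm α), g.2⟩ = θ g := rfl
    rw [h5] at h4
    unfold ec
    push_cast
    linear_combination h4 / 2
  · right
    exact h3

/-- the pointwise formula on the groups between the alternating and the symmetric group -/
theorem pt_sub (G : Subgroup (Perm α)) (hG : alternatingGroup α ≤ G) {θ : G → ℂ}
    (hθ : IsSolHeilbronn θ) {r : ℕ} (hr : θ 1 = r)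
    (hrk : Small (Fintype.card α) 2 r) (h12 : 12 ≤ Fintype.card α) :
    ∃ (c₁ c₂ : ℕ) (a₁ a₂ : ℂ) (δ : ℕ → ℤˣ → ℂ), ∀ g : G,
      θ g = a₁ + a₂ * sn (g : Perm α) + (c₁ + c₂ * sn (g : Perm α)) * fx (g : Perm α)
        + ec (Fintype.card α) δ (g : Perm α) ∨
      ((g : Perm α).IsCycle ∧ Exc (Fintype.card α) (g : Perm α).support.card
        ∧ Fintype.card α ≤ (g : Perm α).support.card + 1) := by
  by_cases h : G ≤ alternatingGroup α
  · obtain ⟨c₁, c₂, a₁, a₂, δ, h1⟩ := pt_alt (hθ.comp (Subgroup.inclusion hG)) (r := r)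
      (by rw [map_one]; exact hr) hrk h12
    refine ⟨c₁, c₂, a₁, a₂, δ, fun g => ?_⟩
    exact h1 ⟨(g : Perm α), h g.2⟩
  · rw [SetLike.not_le_iff_exists] at h
    obtain ⟨o, ho, ho'⟩ := h
    have ht : ∀ g : Perm α, g ∈ G := by
      intro g
      by_cases hg : g ∈ alternatingGroup α
      · exact hG hg
      · have h1 := mul_mem (hG (odd_mul hg (b := o⁻¹) (fun h => ho' ((inv_mem_iff).mp h)))) ho
        rwa [inv_mul_cancel_right] at h1
    let ζ : Perm α →* G :=
      { toFun := fun g => ⟨g, ht g⟩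
        map_one' := rfl
        map_mul' := fun _ _ => rfl }
    have hF : IsSolHeilbronn (fun g => θ (ζ g)) := hθ.comp ζ
    obtain ⟨c₁, c₂, a₁, a₂, δ, h1⟩ := pt_sym hF (nil_two hF (r := r) (by
      rw [map_one]; exact hr) hrk) h12
    refine ⟨c₁, c₂, a₁, a₂, δ, fun g => Or.inl ?_⟩
    exact h1 (g : Perm α)

end pt

end Pool.Agent.U93.T
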