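import Pool.Agent.U93.Q.Unif
import Pool.Agent.U93.T.Ind
import Pool.Agent.U143.RG.Lem

/-!
# The relations for functions which are nonnegative on the solvable subgroups
-/

set_option autoImplicit false
set_option linter.unusedSectionVars false

namespace Pool.Agent.U93.T

open Equiv Equiv.Perm Pool.Agent.U93.S Pool.Agent.U93.L Pool.Agent.H302R2 Pool.Agent.H302R3
  Pool.Agent.U93.Q
open Pool.Agent.U143.RG (coset_const)

section transfer

variable {α β : Type} [Fintype α] [DecidableEq α] [Fintype β] [DecidableEq β]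

/-- transfer to another set -/
lemma transfer {F : Perm α → ℂ} (hF : IsSolHeilbronn F) (hc : Fintype.card β = Fintype.card α) :
    ∃ F' : Perm β → ℂ, IsSolHeilbronn F' ∧ ∀ g, F' g = fF F g.cycleType := by
  let e : β ≃ α := Fintype.equivOfCardEq hc
  refine ⟨fun g => F (e.permCongrHom g), hF.comp e.permCongrHom.toMonoidHom, fun g => ?_⟩
  change F (e.permCongr g) = _
  rw [← fF_eq hF.conj, cycleType_permCongr]

end transfer

section rels

variable {α : Type} [Fintype α] [DecidableEq α]

lemma nil_two {F : Perm α → ℂ} (hF : IsSolHeilbronn F) {r : ℕ} (hr : F 1 = r)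
    (hrk : Small (Fintype.card α) 2 r) : NilZ (Fin 2) F := by
  have h4 := nilZ_sol (k := 2) (⊤ : Subgroup (Perm α)) le_top
    (θ := fun g : (⊤ : Subgroup (Perm α)) => F g) (hF.comp (⊤ : Subgroup (Perm α)).subtype)
    (r := r) (by exact hr) hrk
  have h5 : ext0 (⊤ : Subgroup (Perm α)) (fun g : (⊤ : Subgroup (Perm α)) => F g) = F := by
    funext g
    unfold ext0
    rw [dif_pos (Subgroup.mem_top g)]
  rwa [h5] at h4

/-- multiplication of a cycle length by an odd prime -/
lemma rel_odd {F : Perm α → ℂ} (hF : IsSolHeilbronn F)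
    (h4 : ∀ a b a' b' : Multiset ℕ, Ok a → Ok b → Ok a' → Ok b' → sg a = sg b → sg a' = sg b' →
      max a.sum b.sum + max a'.sum b'.sum ≤ Fintype.card α →
      fF F (a + a') - fF F (a + b') - fF F (b + a') + fF F (b + b') = 0)
    {q m : ℕ} (hq : q.Prime) (hq2 : q ≠ 2) (hm : 2 ≤ m) (s : Multiset ℕ) (hs : Ok s)
    (hsum : q * m + s.sum ≤ Fintype.card α) :
    fF F ({q * m} + s) = fF F (Multiset.replicate q m + s) := by
  have : NeZero m := ⟨by omega⟩
  have : NeZero q := ⟨hq.ne_zero⟩
  set n := Fintype.card α with hn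
  let β := Fin (n - q * m)
  obtain ⟨κ, hκ⟩ : ∃ κ : Perm β, κ.cycleType = s := by
    rw [exists_with_cycleType_iff]
    refine ⟨?_, hs⟩
    rw [Fintype.card_fin]
    omega
  obtain ⟨F', hF', hF'e⟩ := transfer (β := (ZMod m × ZMod q) ⊕ β) hF (by
    rw [Fintype.card_sum, Fintype.card_prod, ZMod.card, ZMod.card, Fintype.card_fin,
      mul_comm m q]
    omega)
  let ν : (ZMod m → Multiplicative (ZMod q)) →* Perm ((ZMod m × ZMod q) ⊕ β) :=
    (sumCongrHom _ _).comp (MonoidHom.prod (nuP m q) 1)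
  have hν : ∀ c, ν c = Perm.sumCongr (nuP m q c) 1 := fun c => rfl
  have hinj : Function.Injective ν := by
    intro c d h
    apply nuP_injective
    have h1 : ((nuP m q c, (1 : Perm β)) : Perm (ZMod m × ZMod q) × Perm β) = (nuP m q d, 1) :=
      sumCongrHom_injective h
    exact (Prod.ext_iff.mp h1).1
  have hx : ∀ c, (Perm.sumCongr (tsh m q) κ : Perm ((ZMod m × ZMod q) ⊕ β)) * ν c
      * (Perm.sumCongr (tsh m q) κ)⁻¹ = ν (shf c) := by
    intro c
    rw [hν, hν, sumCongr_inv, Perm.sumCongr_mul, Perm.sumCongr_mul, tsh_conj, mul_one,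
      mul_inv_cancel]
  have hqo := hq.odd_of_ne_two hq2
  have key := Pool.Agent.U143.RG.coset_const hF' ν hinj (x := Perm.sumCongr (tsh m q) κ) (fun c => ⟨_, hx c⟩)
    (Ω := ZMod m) (fun i => (Pi.evalMonoidHom (fun _ => Multiplicative (ZMod q)) i).ker)
    (fun i c => (fF F 0 - fF F {q}) * (if c i ≠ 1 then 1 else 0)) (fF F 0)
    (by
      intro i b hb c
      have h1 : b i = 1 := hb
      simp only [Pi.mul_apply, h1, mul_one])
    (by
      intro c
      rw [hF'e, hν, cycleType_sumCongr, cycleType_one, add_zero, nuP_cycleType hq,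
        ← Finset.mul_sum, Finset.sum_boole]
      have h1 := rel_lin h4 (u := {q}) (Ok.sing hq.two_le) (sg_odd_rep hqo)
        (Finset.univ.filter fun i => c i ≠ 1).card (by
          rw [Multiset.sum_singleton]
          have h2 : (Finset.univ.filter fun i => c i ≠ 1).card ≤ m := by
            refine (Finset.card_le_univ _).trans ?_
            rw [ZMod.card]
          have h3 := Nat.mul_le_mul_right q h2
          rw [mul_comm m q] at h3
          omega)
      rw [Multiset.nsmul_singleton] at h1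
      rw [h1]
      ring)
    (by
      intro l hl hinv i
      obtain ⟨b, hb1, hb2⟩ := char_gen hm hl (fun c => hinv c _ (hx c)) i
      exact ⟨b, hb1, hb2⟩)
    (Pi.mulSingle 0 (Multiplicative.ofAdd 1))
  rw [hF'e, hF'e, hν, Perm.sumCongr_mul, one_mul, cycleType_sumCongr, cycleType_sumCongr,
    w_cycleType hm, tsh_cycleType hm, hκ] at key
  · exact key
  · exact sum_single

variable {m : ℕ} [NeZero m]

/-- the two relations for doubling -/
lemma rel_two {F : Perm α → ℂ} (hF : IsSolHeilbronn F)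
    (h4 : ∀ a b a' b' : Multiset ℕ, Ok a → Ok b → Ok a' → Ok b' → sg a = sg b → sg a' = sg b' →
      max a.sum b.sum + max a'.sum b'.sum ≤ Fintype.card α →
      fF F (a + a') - fF F (a + b') - fF F (b + a') + fF F (b + b') = 0)
    (hm : 2 ≤ m) (hmn : 2 * m + 4 ≤ Fintype.card α) :
    fF F {m, m} + fF F ({m, m} + {2, 2}) = 2 * fF F ({2 * m} + {2}) ∧
    2 * fF F ({m, m} + {2}) = fF F {2 * m} + fF F ({2 * m} + {2, 2}) := by
  set n := Fintype.card α with hn
  let β := Fin (n - 2 * m - 4)
  let B := ZMod m × ZMod 2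
  obtain ⟨F', hF', hF'e⟩ := transfer (β := B ⊕ (Fin 2 ⊕ (Fin 2 ⊕ β))) hF (by
    rw [Fintype.card_sum, Fintype.card_sum, Fintype.card_sum, Fintype.card_prod, ZMod.card,
      ZMod.card, Fintype.card_fin, Fintype.card_fin]
    omega)
  let C := Multiplicative (ZMod 2)
  let a : Perm B × C →* Perm (B ⊕ (Fin 2 ⊕ (Fin 2 ⊕ β))) :=
    { toFun := fun x => Perm.sumCongr x.1 (Perm.sumCongr (sw x.2) (Perm.sumCongr 1 1))
      map_one' := by
        rw [Prod.fst_one, Prod.snd_one, map_one, sumCongr_one, sumCongr_one, sumCongr_one]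
      map_mul' := fun x y => by
        rw [Prod.fst_mul, Prod.snd_mul, map_mul, Perm.sumCongr_mul, Perm.sumCongr_mul,
          Perm.sumCongr_mul, one_mul, one_mul] }
  let b : C →* Perm (B ⊕ (Fin 2 ⊕ (Fin 2 ⊕ β))) :=
    { toFun := fun y => Perm.sumCongr 1 (Perm.sumCongr (sw y) (Perm.sumCongr (sw y) 1))
      map_one' := by
        rw [map_one, sumCongr_one, sumCongr_one, sumCongr_one]
      map_mul' := fun x y => by
        rw [map_mul, Perm.sumCongr_mul, Perm.sumCongr_mul,
          Perm.sumCongr_mul, one_mul, one_mul] }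
  have hab : ∀ x y, Commute (a x) (b y) := by
    intro x y
    change Perm.sumCongr x.1 (Perm.sumCongr (sw x.2) (Perm.sumCongr 1 1)) *
      Perm.sumCongr 1 (Perm.sumCongr (sw y) (Perm.sumCongr (sw y) 1)) =
      Perm.sumCongr 1 (Perm.sumCongr (sw y) (Perm.sumCongr (sw y) 1)) *
      Perm.sumCongr x.1 (Perm.sumCongr (sw x.2) (Perm.sumCongr 1 1))
    rw [Perm.sumCongr_mul, Perm.sumCongr_mul, Perm.sumCongr_mul, Perm.sumCongr_mul,
      Perm.sumCongr_mul, Perm.sumCongr_mul, ← map_mul, ← map_mul, mul_comm x.2 y]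
    simp only [one_mul, mul_one]
  have hΘ := part_sol hF' a b (sol_of_comm mul_comm) hab 1
  set Θ := part F' a b 1 with hΘd
  have hΘ0 : ∀ (h : Perm B) (δ : C), Θ (h, δ)
      = (fF F (h.cycleType + (sw δ).cycleType)
        + fF F (h.cycleType + ((sw (δ * Multiplicative.ofAdd 1)).cycleType + {2}))) / 2 := by
    intro h δ
    rw [hΘd, part, finsum_eq_sum_of_fintype]
    have hu : (Finset.univ : Finset C) = {1, Multiplicative.ofAdd 1} := by decide
    have hc : (Nat.card C : ℂ) = 2 := by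
      rw [Nat.card_eq_fintype_card]
      rfl
    rw [hu, Finset.sum_pair (by decide), hc]
    have e1 : a (h, δ) * b 1 = Perm.sumCongr h (Perm.sumCongr (sw δ) (Perm.sumCongr 1 1)) := by
      rw [map_one, mul_one]
      rfl
    have e2 : a (h, δ) * b (Multiplicative.ofAdd 1)
        = Perm.sumCongr h (Perm.sumCongr (sw (δ * Multiplicative.ofAdd 1))
          (Perm.sumCongr (sw (Multiplicative.ofAdd 1)) 1)) := by
      change Perm.sumCongr h (Perm.sumCongr (sw δ) (Perm.sumCongr 1 1)) *
        Perm.sumCongr 1 (Perm.sumCongr (sw (Multiplicative.ofAdd 1))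
          (Perm.sumCongr (sw (Multiplicative.ofAdd 1)) 1)) = _
      rw [Perm.sumCongr_mul, Perm.sumCongr_mul, Perm.sumCongr_mul, ← map_mul, mul_one, one_mul,
        one_mul]
    rw [e1, e2, hF'e, hF'e, cycleType_sumCongr, cycleType_sumCongr, cycleType_sumCongr,
      cycleType_sumCongr, cycleType_sumCongr, cycleType_sumCongr, cycleType_one, cycleType_one,
      sw_gen_cycleType]
    simp only [add_zero, MonoidHom.one_apply, inv_one, Units.val_one, mul_one]
    ring
  have hgg : (Multiplicative.ofAdd (1 : ZMod 2)) * Multiplicative.ofAdd 1 = 1 := by decide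
  have hΘ1 : ∀ h : Perm B, Θ (h, 1)
      = (fF F h.cycleType + fF F (h.cycleType + {2, 2})) / 2 := by
    intro h
    rw [hΘ0, one_mul, sw_gen_cycleType, map_one, cycleType_one, add_zero]
    rfl
  have hΘ2 : ∀ h : Perm B, Θ (h, Multiplicative.ofAdd 1) = fF F (h.cycleType + {2}) := by
    intro h
    rw [hΘ0, hgg, map_one sw, cycleType_one, zero_add, sw_gen_cycleType]
    ring
  let ν : (ZMod m → C) →* Perm B × C := MonoidHom.prod (nuP m 2)
    { toFun := fun c => ∏ i, c i
      map_one' := by simp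
      map_mul' := fun c d => by simp [Finset.prod_mul_distrib] }
  have hν : ∀ c, ν c = (nuP m 2 c, ∏ i, c i) := fun c => rfl
  have hinj : Function.Injective ν := fun c d h => nuP_injective (congrArg Prod.fst h)
  have hx : ∀ (δ : C) c, ((tsh m 2, δ) : Perm B × C) * ν c * (tsh m 2, δ)⁻¹ = ν (shf c) := by
    intro δ c
    rw [hν, hν, Prod.inv_mk, Prod.mk_mul_mk, Prod.mk_mul_mk, tsh_conj, prod_shf]
    congr 1
    rw [mul_comm δ, mul_inv_cancel_right]
  set D := fF F 0 - fF F {2, 2} with hD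
  have h22 : Ok {2, 2} := (Ok.sing le_rfl).add (Ok.sing le_rfl)
  have hlin := rel_lin h4 (u := {2, 2}) h22 (by rw [sg_two_two, sg_zero])
  have hform : ∀ c, Θ (ν c) = (fF F 0 - D / 2) - ∑ i, (D / 2) * (if c i ≠ 1 then 1 else 0) := by
    intro c
    rw [hν, prod_z2, ← Finset.mul_sum, Finset.sum_boole]
    set k := (Finset.univ.filter fun i => c i ≠ 1).card with hk
    have hkm : k ≤ m := by
      refine (Finset.card_le_univ _).trans ?_
      rw [ZMod.card]
    have hct : (nuP m 2 c).cycleType = Multiset.replicate k 2 := nuP_cycleType Nat.prime_two c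
    have hsum2 : ({2, 2} : Multiset ℕ).sum = 4 := rfl
    obtain ⟨j, hj⟩ | ⟨j, hj⟩ := k.even_or_odd
    · have h1 : (Multiplicative.ofAdd (1 : ZMod 2)) ^ k = 1 := by
        rw [hj, ← two_mul, pow_mul]
        have : (Multiplicative.ofAdd (1 : ZMod 2)) ^ 2 = 1 := by decide
        rw [this, one_pow]
      rw [h1, hΘ1, hct]
      have h2 : Multiset.replicate k 2 = j • ({2, 2} : Multiset ℕ) := by
        rw [hj, Multiset.replicate_add, ← Multiset.nsmul_singleton, ← nsmul_add]
        rfl
      rw [h2, hlin j (by rw [hsum2]; omega)]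
      have h3 := hlin (j + 1) (by rw [hsum2]; omega)
      rw [succ_nsmul] at h3
      rw [h3, hj]
      push_cast
      ring
    · have h1 : (Multiplicative.ofAdd (1 : ZMod 2)) ^ k = Multiplicative.ofAdd 1 := by
        rw [hj, pow_succ, pow_mul]
        have : (Multiplicative.ofAdd (1 : ZMod 2)) ^ 2 = 1 := by decide
        rw [this, one_pow, one_mul]
      rw [h1, hΘ2, hct]
      have h2 : Multiset.replicate k 2 + {2} = (j + 1) • ({2, 2} : Multiset ℕ) := by
        rw [hj, Multiset.replicate_add, two_mul, Multiset.replicate_add, succ_nsmul,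
          ← Multiset.nsmul_singleton, ← nsmul_add, add_assoc]
        rfl
      rw [h2, hlin (j + 1) (by rw [hsum2]; omega), hj]
      push_cast
      ring
  have key : ∀ δ : C, Θ (nuP m 2 (Pi.mulSingle 0 (Multiplicative.ofAdd 1)) * tsh m 2,
      Multiplicative.ofAdd 1 * δ) = Θ (tsh m 2, δ) := by
    intro δ
    have h1 := Pool.Agent.U143.RG.coset_const hΘ ν hinj (x := ((tsh m 2, δ) : Perm B × C)) (fun c => ⟨_, hx δ c⟩)
      (Ω := ZMod m) (fun i => (Pi.evalMonoidHom (fun _ => C) i).ker)
      (fun i c => (D / 2) * (if c i ≠ 1 then 1 else 0)) (fF F 0 - D / 2)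
      (by
        intro i b hb c
        have h1 : b i = 1 := hb
        simp only [Pi.mul_apply, h1, mul_one]) hform
      (by
        intro l hl hinv i
        obtain ⟨b, hb1, hb2⟩ := char_gen hm hl (fun c => hinv c _ (hx δ c)) i
        exact ⟨b, hb1, hb2⟩)
      (Pi.mulSingle 0 (Multiplicative.ofAdd 1))
    rw [hν, Prod.mk_mul_mk] at h1
    rw [prod_single] at h1
    exact h1
  have hw := w_cycleType (q := 2) hm (Pi.mulSingle 0 (Multiplicative.ofAdd 1)) sum_single
  have ht := tsh_cycleType (q := 2) hm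
  constructor
  · have h1 := key 1
    rw [mul_one, hΘ2, hΘ1, hw, ht] at h1
    have h2 : Multiset.replicate 2 m = {m, m} := rfl
    rw [h2] at h1
    linear_combination -2 * h1
  · have h1 := key (Multiplicative.ofAdd 1)
    have h0 : (Multiplicative.ofAdd (1 : ZMod 2)) * Multiplicative.ofAdd 1 = 1 := by decide
    rw [h0, hΘ2, hΘ1, hw, ht] at h1
    have h2 : Multiset.replicate 2 m = {m, m} := rfl
    rw [h2] at h1
    linear_combination -2 * h1

/-- **The relations** -/
theorem rel_of_nil {F : Perm α → ℂ} (hF : IsSolHeilbronn F) (hN : NilZ (Fin 2) F) :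
    Rel (Fintype.card α) (fF F) where
  four := rel_four_nil hF.conj hN
  odd q m hq hq2 hm s hs hsum := rel_odd hF (rel_four_nil hF.conj hN) hq hq2 hm s hs hsum
  two m hm hmn := by
    have : NeZero m := ⟨by omega⟩
    exact (rel_two hF (rel_four_nil hF.conj hN) hm hmn).1
  two' m hm hmn := by
    have : NeZero m := ⟨by omega⟩
    exact (rel_two hF (rel_four_nil hF.conj hN) hm hmn).2

theorem rel_of {F : Perm α → ℂ} (hF : IsSolHeilbronn F) {r : ℕ} (hr : F 1 = r)
    (hrk : Small (Fintype.card α) 2 r) : Rel (Fintype.card α) (fF F) :=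
  rel_of_nil hF (nil_two hF hr hrk)

end rels

/-- the slopes are multiplicities -/
lemma slopes {α : Type} [Fintype α] [DecidableEq α] {F : Perm α → ℂ} (hF : IsSolHeilbronn F)
    (h6 : 6 ≤ Fintype.card α) : ∃ c₁ c₂ : ℕ,
      (gam (fF F) 1 + gam (fF F) (-1)) / 2 = c₁ ∧ (gam (fF F) 1 - gam (fF F) (-1)) / 2 = c₂ := by
  classical
  let β := Fin (Fintype.card α - 6)
  obtain ⟨F', hF', hF'e⟩ := transfer (β := Fin 2 ⊕ (Fin 2 ⊕ (Fin 2 ⊕ β))) hF (by
    simp only [Fintype.card_sum, Fintype.card_fin, β]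
    omega)
  let C := Multiplicative (ZMod 2)
  let φ : C × C × C →* Perm (Fin 2 ⊕ (Fin 2 ⊕ (Fin 2 ⊕ β))) :=
    { toFun := fun x => Perm.sumCongr (sw x.1) (Perm.sumCongr (sw x.2.1)
        (Perm.sumCongr (sw x.2.2) 1))
      map_one' := by
        simp only [Prod.fst_one, Prod.snd_one, map_one, sumCongr_one]
      map_mul' := fun x y => by
        simp only [Prod.fst_mul, Prod.snd_mul, map_mul, Perm.sumCongr_mul, one_mul] }
  have hφ : ∀ a b c : C, F' (φ (a, b, c))
      = fF F ((sw a).cycleType + ((sw b).cycleType + (sw c).cycleType)) := by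
    intro a b c
    rw [hF'e]
    change fF F (Perm.sumCongr (sw a) (Perm.sumCongr (sw b)
        (Perm.sumCongr (sw c) (1 : Perm β)))).cycleType = _
    rw [cycleType_sumCongr, cycleType_sumCongr, cycleType_sumCongr, cycleType_one, add_zero]
  have hg0 : gam (fF F) 1 = (fF F 0 - fF F {2, 2}) / 4 := if_pos rfl
  have hg1 : gam (fF F) (-1) = (fF F {2} - fF F ({2, 2} + {2})) / 4 := if_neg (by decide)
  have hs1 : (sw 1).cycleType = 0 := by rw [map_one, cycleType_one]
  have e22 : ({2} : Multiset ℕ) + {2} = {2, 2} := rfl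
  have e222 : ({2} : Multiset ℕ) + {2, 2} = {2, 2} + {2} := add_comm _ _
  have hcard : (Nat.card (C × C × C) : ℂ) = 8 := by
    rw [Nat.card_eq_fintype_card]
    rfl
  have hi1 : (((sgC (1 : C))⁻¹ : ℂˣ) : ℂ) = 1 := units_inv_one sgC_one
  have hi2 : (((sgC (Multiplicative.ofAdd 1))⁻¹ : ℂˣ) : ℂ) = -1 := units_inv_neg sgC_gen
  obtain ⟨n₁, h1⟩ := hF'.mult_hom (sol_of_comm mul_comm) φ (sgC.comp (MonoidHom.fst C (C × C)))
  obtain ⟨n₂, h2⟩ := hF'.mult_hom (sol_of_comm mul_comm) φ ((sgC.comp ((MonoidHom.fst C C).comp (MonoidHom.snd C (C × C))))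
    * (sgC.comp ((MonoidHom.snd C C).comp (MonoidHom.snd C (C × C)))))
  refine ⟨n₁, n₂, ?_, ?_⟩
  · rw [Fintype.sum_prod_type, sumC, Fintype.sum_prod_type, sumC, sumC, sumC,
      Fintype.sum_prod_type, sumC, sumC, sumC] at h1
    simp only [hφ, MonoidHom.comp_apply, MonoidHom.coe_fst, hs1, sw_gen_cycleType, hi1, hi2,
      add_zero, zero_add, e22, e222] at h1
    rw [hcard] at h1
    rw [hg0, hg1]
    linear_combination (1 / 8) * h1
  · rw [Fintype.sum_prod_type, sumC, Fintype.sum_prod_type, sumC, sumC, sumC,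
      Fintype.sum_prod_type, sumC, sumC, sumC] at h2
    simp only [hφ, MonoidHom.mul_apply, mul_inv, Units.val_mul, MonoidHom.comp_apply,
      MonoidHom.coe_fst, MonoidHom.coe_snd, hs1, sw_gen_cycleType, hi1, hi2,
      add_zero, zero_add, e22, e222] at h2
    rw [hcard] at h2
    rw [hg0, hg1]
    linear_combination (1 / 8) * h2

end Pool.Agent.U93.T
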