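import Pool.Agent.U93.T.Pair

/-!
# Solvable groups with two orbits, and the positivity in all degrees
-/

set_option autoImplicit false
set_option linter.unusedSectionVars false

namespace Pool.Agent.U93.T

open Equiv Equiv.Perm Pool.Agent.U93.S Pool.Agent.U93.L Pool.Agent.H302R2 Pool.Agent.H302R3
  Pool.Agent.U93.Q Pool.Agent.H541R3.ART Pool.Agent.R389

section glue

variable {α : Type} [Fintype α] [DecidableEq α]

/-- a solvable group for which every orbit contains `x₀` or `x₁`, with odd elements in the stabilizers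
and no elements with a cycle of exceptional length -/
def Nice2 (W : Subgroup (Perm α)) (R : Finset α) : Prop :=
  Group.IsSolvable W ∧ (∀ y : α, ∃ x ∈ R, ∃ g ∈ W, g x = y) ∧
    (∀ x : α, ∃ g ∈ W, g x = x ∧ sign g = -1) ∧
    ∀ g ∈ W, ∀ l ∈ g.cycleType, ¬ Exc (Fintype.card α) l

lemma Nice.two {W : Subgroup (Perm α)} (h : Nice W) (x₀ : α) : Nice2 W {x₀} :=
  ⟨h.1, fun y => ⟨x₀, Finset.mem_singleton_self _, h.2.1 x₀ y⟩, h.2.2.1, h.2.2.2⟩

lemma glue {β : Type} [Fintype β] [DecidableEq β] [Nonempty β] {W₁ : Subgroup (Perm β)}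
    (hW : Nice W₁) (k : ℕ) (hk : k ≤ 2) (hc : Fintype.card β + (k + 1) = Fintype.card α)
    (h12 : 12 ≤ Fintype.card α) :
    ∃ (W : Subgroup (Perm α)) (R : Finset α), R.card ≤ 2 ∧ Nice2 W R := by
  classical
  obtain ⟨hs, ht, ho, he⟩ := hW
  have hcard : Fintype.card (β ⊕ Fin (k + 1)) = Fintype.card α := by
    rw [Fintype.card_sum, Fintype.card_fin, hc]
  let ε : β ⊕ Fin (k + 1) ≃ α := Fintype.equivOfCardEq hcard
  have hε : ∀ (g : Perm (β ⊕ Fin (k + 1))) (p : β ⊕ Fin (k + 1)), ε.permCongr g (ε p) = ε (g p) := by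
    intro g p
    simp [Equiv.permCongr_apply]
  let Z : Subgroup (Perm (Fin (k + 1))) := Subgroup.zpowers (finRotate (k + 1))
  have hZs : Group.IsSolvable Z := Group.isSolvable_of_comm (fun a b => by
    obtain ⟨a, i, rfl⟩ := a
    obtain ⟨b, j, rfl⟩ := b
    refine Subtype.ext ?_
    change finRotate (k + 1) ^ i * finRotate (k + 1) ^ j
      = finRotate (k + 1) ^ j * finRotate (k + 1) ^ i
    rw [← zpow_add, ← zpow_add, add_comm i j])
  have hZt : ∀ y : Fin (k + 1), ∃ g ∈ Z, g 0 = y := by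
    intro y
    have h1 : ∃ i : Fin 3, (finRotate (k + 1) ^ (i : ℕ)) 0 = y := by
      have hk3 : k = 0 ∨ k = 1 ∨ k = 2 := by omega
      rcases hk3 with rfl | rfl | rfl
      · revert y; decide
      · revert y; decide
      · revert y; decide
    obtain ⟨i, hi⟩ := h1
    exact ⟨finRotate (k + 1) ^ (i : ℕ), ⟨(i : ℕ), by simp⟩, hi⟩
  let Φ : W₁ × Z →* Perm α := ε.permCongrHom.toMonoidHom.comp
    ((sumCongrHom β (Fin (k + 1))).comp (W₁.subtype.prodMap Z.subtype))
  have hΦ : ∀ (a : W₁) (b : Z), Φ (a, b) = ε.permCongr (Perm.sumCongr (a : Perm β) (b : Perm _)) :=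
    fun a b => rfl
  obtain ⟨b₀⟩ : Nonempty β := inferInstance
  refine ⟨Φ.range, {ε (Sum.inl b₀), ε (Sum.inr 0)}, Finset.card_le_two, ?_, ?_, ?_, ?_⟩
  · exact Group.isSolvable_of_surjective Φ.rangeRestrict_surjective
  · intro y
    obtain ⟨p, rfl⟩ := ε.surjective y
    rcases p with b | i
    · obtain ⟨g, hg, hgb⟩ := ht b₀ b
      refine ⟨ε (Sum.inl b₀), by simp, Φ (⟨g, hg⟩, 1), ⟨_, rfl⟩, ?_⟩
      rw [hΦ, hε]
      simp [hgb]
    · obtain ⟨g, hg, hgb⟩ := hZt i
      refine ⟨ε (Sum.inr 0), by simp, Φ (1, ⟨g, hg⟩), ⟨_, rfl⟩, ?_⟩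
      rw [hΦ, hε]
      simp [hgb]
  · intro x
    obtain ⟨p, rfl⟩ := ε.surjective x
    rcases p with b | i
    · obtain ⟨g, hg, hgb, hgs⟩ := ho b
      refine ⟨Φ (⟨g, hg⟩, 1), ⟨_, rfl⟩, ?_, ?_⟩
      · rw [hΦ, hε]
        simp [hgb]
      · rw [hΦ, sign_permCongr, sign_sumCongr, hgs]
        simp
    · obtain ⟨g, hg, -, hgs⟩ := ho b₀
      refine ⟨Φ (⟨g, hg⟩, 1), ⟨_, rfl⟩, ?_, ?_⟩
      · rw [hΦ, hε]
        simp
      · rw [hΦ, sign_permCongr, sign_sumCongr, hgs]
        simp
  · rintro _ ⟨⟨a, b⟩, rfl⟩ l hl hE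
    rw [hΦ, cycleType_permCongr, cycleType_sumCongr, Multiset.mem_add] at hl
    rcases hl with hl | hl
    · refine he a a.2 l hl ?_
      rcases hE with ⟨h1, h2⟩ | ⟨j, h1, h2⟩
      · exact Or.inl ⟨h1, by omega⟩
      · exact Or.inr ⟨j, h1, by omega⟩
    · have h1 : l ≤ k + 1 := by
        have h2 := le_card_support_of_mem_cycleType hl
        refine h2.trans ((Finset.card_le_univ _).trans ?_)
        rw [Fintype.card_fin]
      rcases hE with ⟨h3, h4⟩ | ⟨j, h3, h4⟩
      · omega
      · omega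

/-- **Existence in all degrees** -/
theorem exists_nice2 (h12 : 12 ≤ Fintype.card α)
    (h : (Fintype.card α).Prime ∨ ∃ p : ℕ, p.Prime ∧ Fintype.card α = 2 * p) :
    ∃ (W : Subgroup (Perm α)) (R : Finset α), R.card ≤ 2 ∧ Nice2 W R := by
  set n := Fintype.card α with hn
  have key : ∀ k : ℕ, k ≤ 2 → 12 ≤ n - (k + 1) → ¬ (n - (k + 1)).Prime →
      (∀ p : ℕ, p.Prime → n - (k + 1) ≠ 2 * p) →
      ∃ (W : Subgroup (Perm α)) (R : Finset α), R.card ≤ 2 ∧ Nice2 W R := by
    intro k hk h1 h2 h3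
    have hcf : Fintype.card (Fin (n - (k + 1))) = n - (k + 1) := Fintype.card_fin _
    obtain ⟨W₁, hW₁⟩ := exists_nice (α := Fin (n - (k + 1))) (by rw [hcf]; exact h1)
      (by rw [hcf]; exact h2) (by rw [hcf]; exact h3)
    have : Nonempty (Fin (n - (k + 1))) := ⟨⟨0, by omega⟩⟩
    exact glue hW₁ k hk (by rw [hcf]; omega) (by omega)
  rcases h with h | ⟨p, hp, hnp⟩
  · -- an odd prime
    have hodd : ∃ m, n = 2 * m + 1 := by
      rcases h.eq_two_or_odd' with h1 | ⟨m, hm⟩
      · omega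
      · exact ⟨m, hm⟩
    obtain ⟨m, hm⟩ := hodd
    by_cases hmp : m.Prime
    · -- `m` is an odd prime, `n - 3 = 2 (m - 1)`
      obtain ⟨j, hj⟩ : ∃ j, m = 2 * j + 1 := by
        rcases hmp.eq_two_or_odd' with h1 | ⟨j, hj⟩
        · omega
        · exact ⟨j, hj⟩
      have hj2 : 2 ≤ j := by omega
      -- `n ≥ 15`
      have hn15 : 15 ≤ n := by
        by_contra hcon
        have h3 : j ≤ 3 := by omega
        interval_cases j
        · omega
        · subst hj
          rw [hm] at h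
          norm_num at h
      refine key 2 le_rfl (by omega) ?_ ?_
      · intro hcon
        have h1 : (2 : ℕ) ∣ n - 3 := ⟨2 * j, by omega⟩
        have h2 := (Nat.prime_dvd_prime_iff_eq Nat.prime_two hcon).mp h1
        omega
      · intro q hq hcon
        have h1 : (2 : ℕ) ∣ q := ⟨j, by omega⟩
        have h2 := (Nat.prime_dvd_prime_iff_eq Nat.prime_two hq).mp h1
        omega
    · refine key 0 (by omega) (by
        by_contra hcon
        have : n = 12 := by omega
        rw [this] at h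
        norm_num at h) ?_ ?_
      · intro hcon
        have h1 : (2 : ℕ) ∣ n - (0 + 1) := ⟨m, by omega⟩
        have h2 := (Nat.prime_dvd_prime_iff_eq Nat.prime_two hcon).mp h1
        omega
      · intro q hq hcon
        have : q = m := by omega
        subst this
        exact hmp hq
  · -- twice a prime, `n - 2 = 2 (p - 1)`
    obtain ⟨j, hj⟩ : ∃ j, p = 2 * j + 1 := by
      rcases hp.eq_two_or_odd' with h1 | ⟨j, hj⟩
      · omega
      · exact ⟨j, hj⟩
    have h14 : 14 ≤ n := by
      by_contra hcon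
      have : n = 12 ∨ n = 13 := by omega
      omega
    refine key 1 (by omega) (by omega) ?_ ?_
    · intro hcon
      have h1 : (2 : ℕ) ∣ n - (1 + 1) := ⟨2 * j, by omega⟩
      have h2 := (Nat.prime_dvd_prime_iff_eq Nat.prime_two hcon).mp h1
      omega
    · intro q hq hcon
      have h1 : (2 : ℕ) ∣ q := ⟨j, by omega⟩
      have h2 := (Nat.prime_dvd_prime_iff_eq Nat.prime_two hq).mp h1
      omega

end glue

section orbits

variable {α : Type} [Fintype α] [DecidableEq α]

lemma sum_fx_orb {V : Type} [Group V] [Fintype V] (φ : V →* Perm α) :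
    ∃ t : ℕ, (∀ R : Finset α, (∀ y, ∃ x ∈ R, ∃ h, φ h x = y) → t ≤ R.card) ∧
    (Nonempty α → 1 ≤ t) ∧ (t ≤ 1 → ∀ x y, ∃ h, φ h x = y) ∧
    ∑ h : V, fx (φ h) = t * Fintype.card V := by
  classical
  let _ : MulAction V α := MulAction.compHom α φ
  have hsm : ∀ (h : V) (x : α), h • x = φ h x := fun _ _ => rfl
  have : Fintype (Quotient (MulAction.orbitRel V α)) := Fintype.ofFinite _
  have hb := MulAction.sum_card_fixedBy_eq_card_orbits_mul_card_group V α
  refine ⟨Fintype.card (Quotient (MulAction.orbitRel V α)), ?_, ?_, ?_, ?_⟩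
  · intro R hR
    have h1 : Function.Surjective (fun x : R => (Quotient.mk (MulAction.orbitRel V α) (x : α))) := by
      intro q
      induction q using Quotient.inductionOn with
      | _ y =>
        obtain ⟨x, hx, h, hh⟩ := hR y
        exact ⟨⟨x, hx⟩, (Quotient.sound ⟨h, hh⟩ :
          Quotient.mk (MulAction.orbitRel V α) y = Quotient.mk (MulAction.orbitRel V α) x).symm⟩
    have h2 := Fintype.card_le_of_surjective _ h1
    rwa [Fintype.card_coe] at h2
  · rintro ⟨x⟩
    exact Fintype.card_pos_iff.mpr ⟨Quotient.mk _ x⟩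
  · intro ht x y
    rw [Fintype.card_le_one_iff_subsingleton] at ht
    have h1 : Quotient.mk (MulAction.orbitRel V α) y = Quotient.mk (MulAction.orbitRel V α) x :=
      Subsingleton.elim _ _
    obtain ⟨h, hh⟩ := Quotient.exact h1
    exact ⟨h, hh⟩
  · rw [← hb]
    refine Finset.sum_congr rfl fun h _ => ?_
    unfold fx
    rw [Fintype.card_subtype]
    rfl

variable {G : Subgroup (Perm α)}

/-- a group without exceptional cycles of degree `p` or `2 p` is intransitive -/
lemma two_orbits (h0 : 0 < Fintype.card α) {p : ℕ} (hp : p.Prime) (hpn : p ∣ Fintype.card α)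
    (hnp : Fintype.card α < 2 * p + 4) (M : Subgroup G) [Fintype M]
    (hM : ∀ h ∈ M, ∀ l ∈ (h : Perm α).cycleType, ¬ Exc (Fintype.card α) l) {t : ℕ}
    (ht : ∑ h : M, fx ((h : G) : Perm α) = t * Fintype.card M) : 2 ≤ t := by
  classical
  let φM : M →* Perm α := G.subtype.comp M.subtype
  obtain ⟨t', -, -, ht1, ht'⟩ := sum_fx_orb φM
  have hcM : 0 < Fintype.card M := Fintype.card_pos
  have htt : t = t' := by
    have h1 : t * Fintype.card M = t' * Fintype.card M := ht.symm.trans ht'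
    exact Nat.eq_of_mul_eq_mul_right hcM h1
  subst htt
  by_contra hcon
  have htr := ht1 (by omega)
  -- orbit-stabilizer
  let _ : MulAction M α := MulAction.compHom α φM
  have : MulAction.IsPretransitive M α := ⟨fun x y => htr x y⟩
  obtain ⟨x⟩ := Fintype.card_pos_iff.mp h0
  have hdvd : Fintype.card α ∣ Fintype.card M := by
    have h1 := MulAction.card_orbit_mul_card_stabilizer_eq_card_group M x
    have h2 : Fintype.card (MulAction.orbit M x) = Fintype.card α :=
      Fintype.card_congr ((Equiv.setCongr (MulAction.orbit_eq_univ M x)).trans (Equiv.Set.univ α))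
    rw [h2] at h1
    exact ⟨_, h1.symm⟩
  have : Fact p.Prime := ⟨hp⟩
  obtain ⟨h, hh⟩ := exists_prime_orderOf_dvd_card p (hpn.trans hdvd)
  have hφ : Function.Injective φM := by
    intro a b hab
    exact Subtype.ext (Subtype.ext hab)
  have ho : orderOf (φM h) = p := by rw [orderOf_injective φM hφ, hh]
  obtain ⟨k, hk⟩ := cycleType_prime_order (σ := φM h) (by rw [ho]; exact hp)
  rw [ho] at hk
  refine hM (h : G) h.2 p ?_ (Or.inl ⟨hp, hnp⟩)
  change p ∈ (φM h).cycleType
  rw [hk]
  exact Multiset.mem_replicate.mpr ⟨by omega, rfl⟩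

/-- the conditions for the trivial character or for the sign exclude exceptional cycles -/
lemma free_of_van {n : ℕ} (M : Subgroup G) [Fintype M]
    (hV : Van n M (fun _ => 1) ∨ Van n M (fun h => sn ((h : G) : Perm α))) :
    ∀ h ∈ M, ∀ l ∈ (h : Perm α).cycleType, ¬ Exc n l := by
  classical
  intro h hh l hl hE
  rw [cycleType_def, Multiset.mem_map] at hl
  obtain ⟨C, hC, rfl⟩ := hl
  have hC' : C ∈ (h : Perm α).cycleFactorsFinset := hC
  have hcyc : C.IsCycle := (mem_cycleFactorsFinset_iff.mp hC').1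
  have hz : ∑ h : M, (if C ∈ ((h : G) : Perm α).cycleFactorsFinset then (1 : ℂ) else 0) = 0 := by
    rcases hV with hV | hV
    · have h1 := (hV C hcyc hE).1
      rw [finsum_eq_sum_of_fintype] at h1
      exact h1
    · have h1 := (hV C hcyc hE).2
      rw [finsum_eq_sum_of_fintype] at h1
      refine Eq.trans (Finset.sum_congr rfl fun g _ => ?_) h1
      rw [sn_sq]
  rw [← Finset.sum_filter, Finset.sum_const, nsmul_eq_mul, mul_one] at hz
  have h2 : (Finset.univ.filter fun g : M =>
      C ∈ ((g : G) : Perm α).cycleFactorsFinset).card = 0 := by exact_mod_cast hz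
  rw [Finset.card_eq_zero] at h2
  have h3 : (⟨h, hh⟩ : M) ∈ Finset.univ.filter fun g : M =>
      C ∈ ((g : G) : Perm α).cycleFactorsFinset := Finset.mem_filter.mpr ⟨Finset.mem_univ _, hC'⟩
  rw [h2] at h3
  exact absurd h3 (Finset.notMem_empty _)

end orbits

section posall

variable {α : Type} [Fintype α] [DecidableEq α] {G : Subgroup (Perm α)}

/-- the positivity at the trivial character and the sign -/
theorem pos_lin2 (hG : alternatingGroup α ≤ G) {θ : G → ℂ} (hθ : IsSolHeilbronn θ)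
    (h12 : 12 ≤ Fintype.card α) {W : Subgroup (Perm α)} {R : Finset α} (hNW : Nice2 W R)
    {c₁ c₂ : ℕ} {a₁ a₂ : ℂ}
    (hs : ∀ (M : Subgroup G) [Fintype M] (χ : M → ℂ),
      Van (Fintype.card α) M χ → ∑ h : M, θ h * χ h⁻¹ = ∑ h : M, (a₁ + a₂ * sn ((h : G) : Perm α)
      + (c₁ + c₂ * sn ((h : G) : Perm α)) * fx ((h : G) : Perm α)) * χ h⁻¹)
    (M : Subgroup G) [Fintype M]
    (hMR : ∀ t : ℕ, ∑ h : M, fx ((h : G) : Perm α) = t * Fintype.card M → R.card ≤ t) :
    (Van (Fintype.card α) M (fun _ => 1) → ∃ k : ℝ, 0 ≤ k ∧ ∑ h : M, θ h = k) ∧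
    (Van (Fintype.card α) M (fun h => sn ((h : G) : Perm α)) →
      ∃ k : ℝ, 0 ≤ k ∧ ∑ h : M, θ h * sn ((h : G) : Perm α) = k) := by
  classical
  have hne : Nonempty α := Fintype.card_pos_iff.mp (by omega)
  obtain ⟨hWs, hWt, hWo, hWe⟩ := hNW
  let V : Subgroup G := W.comap G.subtype
  have hVW : ∀ v : V, ((v : G) : Perm α) ∈ W := fun v => v.2
  have hVs : Group.IsSolvable V := by
    let ρ : V →* W := (G.subtype.comp V.subtype).codRestrict W hVW
    have hρ : Function.Injective ρ := by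
      intro a b hab
      have h1 : ((a : G) : Perm α) = ((b : G) : Perm α) := by
        have h2 := congrArg (fun w : W => (w : Perm α)) hab
        exact h2
      exact Subtype.ext (Subtype.ext h1)
    exact Group.isSolvable_of_isSolvable_injective hρ
  have : Fintype V := Fintype.ofFinite V
  have hVf : ∀ χ : V → ℂ, Van (Fintype.card α) V χ := fun χ =>
    van_of_free χ fun h hh l hl => hWe _ hh l hl
  have hcV : (Fintype.card V : ℂ) ≠ 0 := by
    exact_mod_cast Fintype.card_ne_zero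
  have hcM : (0 : ℝ) ≤ (Fintype.card M : ℝ) := by positivity
  let φ : V →* Perm α := G.subtype.comp V.subtype
  let φM : M →* Perm α := G.subtype.comp M.subtype
  -- transitivity
  have hVt : ∀ y, ∃ x ∈ R, ∃ h, φ h x = y := by
    intro y
    obtain ⟨x, hxR, g, hg, hgx⟩ := hWt y
    refine ⟨x, hxR, ?_⟩
    by_cases hgG : g ∈ G
    · exact ⟨⟨⟨g, hgG⟩, hg⟩, hgx⟩
    · obtain ⟨o, ho, hox, hos⟩ := hWo x
      have hsg : sign g = -1 := by
        rcases Int.units_eq_one_or (sign g) with h1 | h1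
        · exact absurd (hG (mem_alternatingGroup.mpr h1)) hgG
        · exact h1
      have h2 : g * o ∈ G := hG (mem_alternatingGroup.mpr (by rw [map_mul, hsg, hos]; rfl))
      exact ⟨⟨⟨g * o, h2⟩, W.mul_mem hg ho⟩, by
        change (g * o) x = y
        rw [Perm.mul_apply, hox, hgx]⟩
  obtain ⟨t, ht1, -, -, ht⟩ := sum_fx_orb φ
  have htR : t ≤ R.card := ht1 R hVt
  have hfV : ∑ h : V, (fx (φ h) : ℂ) = t * Fintype.card V := by
    exact_mod_cast ht
  obtain ⟨k₁, hk₁⟩ := hθ.mult V hVs 1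
  have e1 : ∑ h : V, θ h = k₁ * Fintype.card V := by
    rw [finsum_eq_sum_of_fintype, Nat.card_eq_fintype_card] at hk₁
    simpa using hk₁
  have f1 : ∑ h : V, θ h = ∑ h : V, (a₁ + a₂ * sn (φ h) + (c₁ + c₂ * sn (φ h)) * fx (φ h)) := by
    have h1 := hs V (fun _ => 1) (hVf _)
    simp only [mul_one] at h1
    exact h1
  rw [e1, shape_sum φ] at f1
  -- the group `M`
  obtain ⟨tM, -, -, -, htM⟩ := sum_fx_orb φM
  have htM0 : t ≤ tM := htR.trans (hMR tM htM)
  have hfM : ∑ h : M, (fx (φM h) : ℂ) = tM * Fintype.card M := by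
    exact_mod_cast htM
  have hM1 : Van (Fintype.card α) M (fun _ => 1) → ∑ h : M, θ h
      = a₁ * Fintype.card M + a₂ * ∑ h : M, sn (φM h) + c₁ * ∑ h : M, (fx (φM h) : ℂ)
        + c₂ * ∑ h : M, sn (φM h) * (fx (φM h) : ℂ) := by
    intro hV
    have h1 := hs M (fun _ => 1) hV
    simp only [mul_one] at h1
    rw [h1]
    exact shape_sum φM c₁ c₂ a₁ a₂
  have hM2 : Van (Fintype.card α) M (fun h => sn ((h : G) : Perm α)) →
      ∑ h : M, θ h * sn ((h : G) : Perm α)
      = a₂ * Fintype.card M + a₁ * ∑ h : M, sn (φM h) + c₂ * ∑ h : M, (fx (φM h) : ℂ)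
        + c₁ * ∑ h : M, sn (φM h) * (fx (φM h) : ℂ) := by
    intro hV
    have h1 := hs M (fun h => sn ((h : G) : Perm α)) hV
    have h2 : ∀ h : M, sn (((h⁻¹ : M) : G) : Perm α) = sn ((h : G) : Perm α) := by
      intro h
      exact sn_inv ((h : G) : Perm α)
    simp only [h2] at h1
    rw [h1]
    exact shape_sum_sn φM c₁ c₂ a₁ a₂
  have hr0 : (0 : ℝ) ≤ (tM : ℝ) - t := by
    have : (t : ℝ) ≤ tM := by exact_mod_cast htM0
    linarith
  rcases odd_or_even φ with ⟨o, ho⟩ | hall
  · -- the symmetric group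
    have hodd : ∀ x, ∃ o, φ o x = x ∧ sign (φ o) = -1 := by
      have htop : ∀ g : Perm α, g ∈ G := by
        intro g
        rcases Int.units_eq_one_or (sign g) with h1 | h1
        · exact hG (mem_alternatingGroup.mpr h1)
        · have h2 : g * (φ o)⁻¹ ∈ G := hG (mem_alternatingGroup.mpr (by
            rw [map_mul, map_inv, h1, ho]; rfl))
          have h3 := G.mul_mem h2 (show φ o ∈ G from (o : G).2)
          rwa [inv_mul_cancel_right] at h3
      intro x
      obtain ⟨w, hw, hwx, hws⟩ := hWo x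
      exact ⟨⟨⟨w, htop w⟩, hw⟩, hwx, hws⟩
    rw [sum_sn_zero φ ho, sum_snfx_zero φ hodd, hfV] at f1
    have g1 : a₁ = k₁ - t * c₁ := by
      have h1 : (a₁ + t * c₁ - k₁) * (Fintype.card V : ℂ) = 0 := by linear_combination -f1
      have h2 := (mul_eq_zero.mp h1).resolve_right hcV
      linear_combination h2
    obtain ⟨k₂, hk₂⟩ := hθ.mult V hVs (sgH.comp φ)
    have e2 : ∑ h : V, θ h * sn (φ h) = k₂ * Fintype.card V := by
      rw [finsum_eq_sum_of_fintype, Nat.card_eq_fintype_card] at hk₂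
      rw [← hk₂]
      refine Finset.sum_congr rfl fun h _ => ?_
      rw [← map_inv]
      congr 1
      exact (sn_inv (φ h)).symm
    have f2 : ∑ h : V, θ h * sn (φ h)
        = ∑ h : V, (a₁ + a₂ * sn (φ h) + (c₁ + c₂ * sn (φ h)) * fx (φ h)) * sn (φ h) := by
      have h1 := hs V (fun h => sn ((h : G) : Perm α)) (hVf _)
      have h2 : ∀ h : V, sn (((h⁻¹ : V) : G) : Perm α) = sn ((h : G) : Perm α) := by
        intro h
        exact sn_inv ((h : G) : Perm α)
      simp only [h2] at h1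
      exact h1
    rw [e2, shape_sum_sn φ, sum_sn_zero φ ho, sum_snfx_zero φ hodd, hfV] at f2
    have g2 : a₂ = k₂ - t * c₂ := by
      have h1 : (a₂ + t * c₂ - k₂) * (Fintype.card V : ℂ) = 0 := by linear_combination -f2
      have h2 := (mul_eq_zero.mp h1).resolve_right hcV
      linear_combination h2
    obtain ⟨l, hl0, hl⟩ := snfx_nonneg φM
    rcases odd_or_even φM with ⟨oM, hoM⟩ | hMe
    · constructor
      · intro hV
        refine ⟨(k₁ + c₁ * (tM - t)) * Fintype.card M + c₂ * l, by positivity, ?_⟩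
        rw [hM1 hV, sum_sn_zero φM hoM, hfM, hl, g1]
        push_cast
        ring
      · intro hV
        refine ⟨(k₂ + c₂ * (tM - t)) * Fintype.card M + c₁ * l, by positivity, ?_⟩
        rw [hM2 hV, sum_sn_zero φM hoM, hfM, hl, g2]
        push_cast
        ring
    · have hsnM : ∑ h : M, sn (φM h) = Fintype.card M := by
        rw [Finset.sum_congr rfl fun h _ => hMe h]
        simp
      have hsfM : ∑ h : M, sn (φM h) * (fx (φM h) : ℂ) = tM * Fintype.card M := by
        rw [← hfM]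
        refine Finset.sum_congr rfl fun h _ => ?_
        rw [hMe h, one_mul]
      constructor
      · intro hV
        refine ⟨(k₁ + k₂ + (c₁ + c₂) * (tM - t)) * Fintype.card M, by positivity, ?_⟩
        rw [hM1 hV, hsnM, hfM, hsfM, g1, g2]
        push_cast
        ring
      · intro hV
        refine ⟨(k₁ + k₂ + (c₁ + c₂) * (tM - t)) * Fintype.card M, by positivity, ?_⟩
        rw [hM2 hV, hsnM, hfM, hsfM, g1, g2]
        push_cast
        ring
  · -- the alternating group
    have hsnV : ∑ h : V, sn (φ h) = Fintype.card V := by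
      rw [Finset.sum_congr rfl fun h _ => hall h]
      simp
    have hsfV : ∑ h : V, sn (φ h) * (fx (φ h) : ℂ) = t * Fintype.card V := by
      rw [← hfV]
      refine Finset.sum_congr rfl fun h _ => ?_
      rw [hall h, one_mul]
    rw [hsnV, hsfV, hfV] at f1
    have g1 : a₁ + a₂ = k₁ - t * (c₁ + c₂) := by
      have h1 : (a₁ + a₂ + t * (c₁ + c₂) - k₁) * (Fintype.card V : ℂ) = 0 := by
        linear_combination -f1
      have h2 := (mul_eq_zero.mp h1).resolve_right hcV
      linear_combination h2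
    have hGA : ∀ g : G, sn (g : Perm α) = 1 := by
      intro g
      by_contra hcon
      have hsg : sign (g : Perm α) = -1 := by
        rcases Int.units_eq_one_or (sign (g : Perm α)) with h1 | h1
        · exfalso
          apply hcon
          unfold sn
          rw [h1]; norm_num
        · exact h1
      obtain ⟨x⟩ := hne
      obtain ⟨w, hw, -, hws⟩ := hWo x
      have h2 : w * (g : Perm α)⁻¹ ∈ G := hG (mem_alternatingGroup.mpr (by
        rw [map_mul, map_inv, hws, hsg]; rfl))
      have h3 := G.mul_mem h2 g.2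
      rw [inv_mul_cancel_right] at h3
      have h4 := hall ⟨⟨w, h3⟩, hw⟩
      change sn w = 1 at h4
      unfold sn at h4
      rw [hws] at h4
      norm_num at h4
    have hsnM : ∑ h : M, sn (φM h) = Fintype.card M := by
      rw [Finset.sum_congr rfl fun (h : M) _ => show sn (φM h) = 1 from hGA (h : G)]
      simp
    have hsfM : ∑ h : M, sn (φM h) * (fx (φM h) : ℂ) = tM * Fintype.card M := by
      rw [← hfM]
      refine Finset.sum_congr rfl fun h _ => ?_
      rw [show sn (φM h) = 1 from hGA (h : G), one_mul]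
    constructor
    · intro hV
      refine ⟨(k₁ + (c₁ + c₂) * (tM - t)) * Fintype.card M, by positivity, ?_⟩
      rw [hM1 hV, hsnM, hfM, hsfM]
      push_cast
      linear_combination (Fintype.card M : ℂ) * g1
    · intro hV
      refine ⟨(k₁ + (c₁ + c₂) * (tM - t)) * Fintype.card M, by positivity, ?_⟩
      rw [hM2 hV, hsnM, hfM, hsfM]
      push_cast
      linear_combination (Fintype.card M : ℂ) * g1


/-- **The positivity at the trivial character and the sign, in all degrees** -/
theorem pos_all (hG : alternatingGroup α ≤ G) {θ : G → ℂ} (hθ : IsSolHeilbronn θ)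
    (h12 : 12 ≤ Fintype.card α) {c₁ c₂ : ℕ} {a₁ a₂ : ℂ}
    (hs : ∀ (M : Subgroup G) [Fintype M] (χ : M → ℂ),
      Van (Fintype.card α) M χ → ∑ h : M, θ h * χ h⁻¹ = ∑ h : M, (a₁ + a₂ * sn ((h : G) : Perm α)
      + (c₁ + c₂ * sn ((h : G) : Perm α)) * fx ((h : G) : Perm α)) * χ h⁻¹)
    (M : Subgroup G) [Fintype M] :
    (Van (Fintype.card α) M (fun _ => 1) → ∃ k : ℝ, 0 ≤ k ∧ ∑ h : M, θ h = k) ∧
    (Van (Fintype.card α) M (fun h => sn ((h : G) : Perm α)) →
      ∃ k : ℝ, 0 ≤ k ∧ ∑ h : M, θ h * sn ((h : G) : Perm α) = k) := by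
  classical
  by_cases hc : (Fintype.card α).Prime ∨ ∃ p : ℕ, p.Prime ∧ Fintype.card α = 2 * p
  · obtain ⟨W, R, hR, hW⟩ := exists_nice2 h12 hc
    have hMR : (∀ h ∈ M, ∀ l ∈ (h : Perm α).cycleType, ¬ Exc (Fintype.card α) l) →
        ∀ t : ℕ, ∑ h : M, fx ((h : G) : Perm α) = t * Fintype.card M → R.card ≤ t := by
      intro hM t ht
      refine hR.trans ?_
      rcases hc with hc | ⟨p, hp, hpn⟩
      · exact two_orbits (by omega) hc dvd_rfl (by omega) M hM ht
      · exact two_orbits (by omega) hp ⟨2, by omega⟩ (by omega) M hM ht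
    exact ⟨fun hV => (pos_lin2 hG hθ h12 hW hs M (hMR (free_of_van M (Or.inl hV)))).1 hV,
      fun hV => (pos_lin2 hG hθ h12 hW hs M (hMR (free_of_van M (Or.inr hV)))).2 hV⟩
  · push Not at hc
    exact pos_lin hG hθ h12 hc.1 hc.2 hs M

end posall

end Pool.Agent.U93.T
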