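import Mathlib

/-!
# Solvable transitive groups: affine maps in the fibres over an abelian group
-/

set_option autoImplicit false
set_option linter.unusedSectionVars false

namespace Pool.Agent.U93.T

open Equiv Equiv.Perm

variable {B : Type} [AddCommGroup B] {u : ℕ}

/-- `g (b, x) = (b + i, a(b) x + c(b))` -/
def IsW (g : Perm (B × ZMod u)) (i : B) (a c : B → ZMod u) : Prop :=
  ∀ b x, g (b, x) = (b + i, a b * x + c b)

lemma IsW.mul {g h : Perm (B × ZMod u)} {i i' : B} {a c a' c' : B → ZMod u} (hg : IsW g i a c)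
    (hh : IsW h i' a' c') : IsW (g * h) (i' + i) (fun b => a (b + i') * a' b)
      (fun b => a (b + i') * c' b + c (b + i')) := by
  intro b x
  rw [Perm.mul_apply, hh, hg]
  refine Prod.ext ?_ ?_
  · simp [add_assoc]
  · simp only
    ring

lemma IsW.ne [Fact u.Prime] {g : Perm (B × ZMod u)} {i : B} {a c : B → ZMod u} (hg : IsW g i a c)
    (b : B) : a b ≠ 0 := by
  intro h
  have h1 : g (b, 0) = g (b, 1) := by rw [hg, hg, h]; simp
  have h2 := congrArg Prod.snd (g.injective h1)
  exact zero_ne_one h2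

lemma IsW.inv [Fact u.Prime] {g : Perm (B × ZMod u)} {i : B} {a c : B → ZMod u}
    (hg : IsW g i a c) : IsW g⁻¹ (-i) (fun b => (a (b - i))⁻¹)
      (fun b => -(a (b - i))⁻¹ * c (b - i)) := by
  intro b x
  rw [Perm.inv_eq_iff_eq, hg]
  have h1 := hg.ne (b - i)
  refine Prod.ext ?_ ?_
  · simp
  · have e : b + -i = b - i := by abel
    simp only [e]
    field_simp
    ring

lemma isW_one : IsW (1 : Perm (B × ZMod u)) 0 (fun _ => 1) (fun _ => 0) := by
  intro b x
  simp

variable (B u) in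
/-- the group of all these maps -/
def WG [Fact u.Prime] : Subgroup (Perm (B × ZMod u)) where
  carrier := {g | ∃ i a c, IsW g i a c}
  mul_mem' := by
    rintro g h ⟨i, a, c, hg⟩ ⟨i', a', c', hh⟩
    exact ⟨_, _, _, hg.mul hh⟩
  one_mem' := ⟨_, _, _, isW_one⟩
  inv_mem' := by
    rintro g ⟨i, a, c, hg⟩
    exact ⟨_, _, _, hg.inv⟩

lemma mem_WG [Fact u.Prime] {g : Perm (B × ZMod u)} : g ∈ WG B u ↔ ∃ i a c, IsW g i a c := Iff.rfl

/-- the first coordinate of a power -/
lemma IsW.pow_fst {g : Perm (B × ZMod u)} {i : B} {a c : B → ZMod u} (hg : IsW g i a c) (k : ℕ)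
    (p : B × ZMod u) : ((g ^ k) p).1 = p.1 + k • i := by
  induction k generalizing p with
  | zero => simp
  | succ k ih =>
    rw [pow_succ, Perm.mul_apply, ih, show g p = g (p.1, p.2) from rfl, hg, succ_nsmul]
    simp only
    abel

/-- powers of maps of the fibres -/
lemma IsW.pow_zero {g : Perm (B × ZMod u)} {a c : B → ZMod u} (hg : IsW g 0 a c) (k : ℕ) :
    IsW (g ^ k) 0 (fun b => a b ^ k) (fun b => c b * ∑ t ∈ Finset.range k, a b ^ t) := by
  induction k with
  | zero => simpa using isW_one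
  | succ k ih =>
    rw [pow_succ']
    intro b x
    rw [(hg.mul ih) b x]
    refine Prod.ext (by simp) ?_
    simp only [add_zero]
    rw [Finset.sum_range_succ', Finset.sum_congr rfl fun t _ => pow_succ' (a b) t,
      ← Finset.mul_sum, pow_succ']
    ring

lemma geom_zero [Fact u.Prime] {a : ZMod u} (ha : a ≠ 0) :
    ∑ t ∈ Finset.range (u * (u - 1)), a ^ t = 0 := by
  by_cases h : a = 1
  · subst h
    simp
  · have h1 := geom_sum_mul a (u * (u - 1))
    have h2 : a ^ (u * (u - 1)) = 1 := by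
      rw [mul_comm, pow_mul, ZMod.pow_card_sub_one_eq_one ha, one_pow]
    rw [h2, sub_self] at h1
    exact (mul_eq_zero.mp h1).resolve_right (sub_ne_zero.mpr h)

lemma WG.pow_eq [Fact u.Prime] {e : ℕ} (he : ∀ b : B, e • b = 0) {g : Perm (B × ZMod u)}
    (hg : g ∈ WG B u) : g ^ (e * (u * (u - 1))) = 1 := by
  obtain ⟨i, a, c, h⟩ := hg
  obtain ⟨i', a', c', h'⟩ := mem_WG.mp ((WG B u).pow_mem ⟨i, a, c, h⟩ e)
  have hi : i' = 0 := by
    have h1 := h.pow_fst e (0, 0)
    rw [h' 0 0, he] at h1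
    simpa using h1
  subst hi
  rw [pow_mul]
  refine Perm.ext fun p => ?_
  obtain ⟨b, x⟩ := p
  rw [h'.pow_zero (u * (u - 1)) b x]
  have ha := h'.ne b
  have h2 : a' b ^ (u * (u - 1)) = 1 := by
    rw [mul_comm, pow_mul, ZMod.pow_card_sub_one_eq_one ha, one_pow]
  simp only [h2, geom_zero ha]
  simp

/-- the shift of the base -/
def WG.base [Fact u.Prime] : WG B u →* Multiplicative B where
  toFun g := Multiplicative.ofAdd ((g : Perm (B × ZMod u)) (0, 0)).1
  map_one' := rfl
  map_mul' := by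
    rintro ⟨g, i, a, c, hg⟩ ⟨h, i', a', c', hh⟩
    change Multiplicative.ofAdd ((g * h) (0, 0)).1
      = Multiplicative.ofAdd (g (0, 0)).1 * Multiplicative.ofAdd (h (0, 0)).1
    rw [(hg.mul hh) 0 0, hg 0 0, hh 0 0, ← ofAdd_add]
    simp only [zero_add]
    rw [add_comm]

lemma WG.mem_base [Fact u.Prime] {g : WG B u} (hg : WG.base g = 1) :
    ∃ a c, IsW (g : Perm (B × ZMod u)) 0 a c := by
  obtain ⟨g, i, a, c, h⟩ := g
  have h1 : (g (0, 0)).1 = 0 := hg
  rw [h 0 0] at h1
  have h2 : i = 0 := by simpa using h1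
  subst h2
  exact ⟨a, c, h⟩

/-- the slopes -/
def WG.slope [Fact u.Prime] : (WG.base (B := B) (u := u)).ker →* (B → ZMod u) where
  toFun g := fun b => (((g : WG B u) : Perm (B × ZMod u)) (b, 1)).2
    - (((g : WG B u) : Perm (B × ZMod u)) (b, 0)).2
  map_one' := by
    funext b
    simp
  map_mul' := by
    rintro ⟨g, hg⟩ ⟨h, hh⟩
    obtain ⟨a, c, h1⟩ := WG.mem_base hg
    obtain ⟨a', c', h2⟩ := WG.mem_base hh
    funext b
    change (((g : Perm (B × ZMod u)) * (h : Perm (B × ZMod u))) (b, 1)).2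
      - (((g : Perm (B × ZMod u)) * (h : Perm (B × ZMod u))) (b, 0)).2
      = (((g : Perm (B × ZMod u)) (b, 1)).2 - ((g : Perm (B × ZMod u)) (b, 0)).2)
        * (((h : Perm (B × ZMod u)) (b, 1)).2 - ((h : Perm (B × ZMod u)) (b, 0)).2)
    rw [(h1.mul h2) b 1, (h1.mul h2) b 0, h1 b 1, h1 b 0, h2 b 1, h2 b 0]
    simp only [add_zero]
    ring

/-- solvability -/
lemma WG.sol [Fact u.Prime] : Group.IsSolvable (WG B u) := by
  have h1 : Group.IsSolvable (WG.slope (B := B) (u := u)).toHomUnits.ker := by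
    refine Group.isSolvable_of_comm ?_
    rintro ⟨⟨g, hg⟩, hg'⟩ ⟨⟨h, hh⟩, hh'⟩
    obtain ⟨a, c, h1⟩ := WG.mem_base hg
    obtain ⟨a', c', h2⟩ := WG.mem_base hh
    have e1 : WG.slope (B := B) (u := u) ⟨g, hg⟩ = 1 := congrArg Units.val hg'
    have e2 : WG.slope (B := B) (u := u) ⟨h, hh⟩ = 1 := congrArg Units.val hh'
    have f1 : ∀ b, a b = 1 := by
      intro b
      have h3 : ((g : Perm (B × ZMod u)) (b, 1)).2 - ((g : Perm (B × ZMod u)) (b, 0)).2 = 1 :=
        congrFun e1 b
      rw [h1 b 1, h1 b 0] at h3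
      simpa using h3
    have f2 : ∀ b, a' b = 1 := by
      intro b
      have h3 : ((h : Perm (B × ZMod u)) (b, 1)).2 - ((h : Perm (B × ZMod u)) (b, 0)).2 = 1 :=
        congrFun e2 b
      rw [h2 b 1, h2 b 0] at h3
      simpa using h3
    refine Subtype.ext (Subtype.ext (Subtype.ext (Perm.ext fun p => ?_)))
    change ((g : Perm (B × ZMod u)) * (h : Perm (B × ZMod u))) p
      = ((h : Perm (B × ZMod u)) * (g : Perm (B × ZMod u))) p
    obtain ⟨b, x⟩ := p
    rw [(h1.mul h2) b x, (h2.mul h1) b x]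
    refine Prod.ext rfl ?_
    simp only [add_zero, f1, f2]
    ring
  have h2 : Group.IsSolvable (WG.base (B := B) (u := u)).ker :=
    Group.isSolvable_of_ker_le_range (WG.slope (B := B) (u := u)).toHomUnits.ker.subtype
      (WG.slope (B := B) (u := u)).toHomUnits (by rw [Subgroup.range_subtype])
  exact Group.isSolvable_of_ker_le_range (WG.base (B := B) (u := u)).ker.subtype
      (WG.base (B := B) (u := u)) (by rw [Subgroup.range_subtype])

/-- transitivity -/
lemma WG.trans [Fact u.Prime] (p q : B × ZMod u) : ∃ g ∈ WG B u, g p = q := by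
  refine ⟨Equiv.prodCongr (Equiv.addRight (q.1 - p.1)) (Equiv.addRight (q.2 - p.2)), ?_, ?_⟩
  · refine ⟨q.1 - p.1, fun _ => 1, fun _ => q.2 - p.2, fun b x => ?_⟩
    simp
  · simp [Prod.ext_iff]

lemma sign_add_two : sign (Equiv.addRight (1 : ZMod 2)) = -1 := by decide

/-- an odd affine map -/
lemma exists_odd [Fact u.Prime] : ∃ (τ : Perm (ZMod u)) (a c : ZMod u), (∀ x, τ x = a * x + c) ∧
    sign τ = -1 := by
  rcases Nat.Prime.eq_two_or_odd' (Fact.out : u.Prime) with h | h
  · subst h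
    refine ⟨Equiv.addRight 1, 1, 1, fun x => by simp, ?_⟩
    convert sign_add_two
  · obtain ⟨γ, hγ⟩ := IsCyclic.exists_generator (α := (ZMod u)ˣ)
    have hu3 : 3 ≤ u := by
      have h2 := (Fact.out : u.Prime).two_le
      obtain ⟨k, hk⟩ := h
      omega
    have hord : orderOf γ = u - 1 := by
      rw [orderOf_eq_card_of_forall_mem_zpowers hγ, Nat.card_eq_fintype_card, ZMod.card_units]
    let τ : Perm (ZMod u) := Equiv.mulLeft₀ (γ : ZMod u) γ.ne_zero
    have hτ : ∀ x, τ x = γ * x := fun x => rfl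
    have hpow : ∀ (k : ℕ) (x : ZMod u), (τ ^ k) x = (γ : ZMod u) ^ k * x := by
      intro k
      induction k with
      | zero => intro x; simp
      | succ k ih =>
        intro x
        rw [pow_succ, Perm.mul_apply, ih, hτ, pow_succ]
        ring
    have hγ1 : (γ : ZMod u) ≠ 1 := by
      intro h1
      have h2 : γ = 1 := Units.ext h1
      rw [h2, orderOf_one] at hord
      omega
    have hne : ∀ y, τ y ≠ y ↔ y ≠ 0 := by
      intro y
      rw [hτ]
      constructor
      · rintro h1 rfl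
        exact h1 (mul_zero _)
      · intro h1 h2
        exact hγ1 (mul_right_cancel₀ h1 (by rw [h2, one_mul]))
    have hcyc : τ.IsCycle := by
      refine ⟨1, (hne 1).mpr one_ne_zero, fun y hy => ?_⟩
      have hy0 := (hne y).mp hy
      obtain ⟨k, hk⟩ := (mem_powers_iff_mem_zpowers.mpr (hγ (Units.mk0 y hy0)))
      refine ⟨k, ?_⟩
      rw [zpow_natCast, hpow, mul_one]
      have h3 := congrArg Units.val hk
      simpa using h3
    have hsupp : τ.support = Finset.univ.erase 0 := by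
      ext y
      rw [Perm.mem_support, hne, Finset.mem_erase]
      simp
    refine ⟨τ, γ, 0, fun x => by rw [hτ, add_zero], ?_⟩
    rw [hcyc.sign, hsupp, Finset.card_erase_of_mem (Finset.mem_univ _), Finset.card_univ, ZMod.card]
    obtain ⟨k, hk⟩ := h
    rw [hk, Nat.add_sub_cancel, pow_mul]
    simp

/-- odd elements in the stabilizers -/
lemma WG.odd [Fact u.Prime] [Fintype B] [DecidableEq B] [Nontrivial B] (p : B × ZMod u) :
    ∃ g ∈ WG B u, g p = p ∧ sign g = -1 := by
  obtain ⟨τ, a, c, hτ, hs⟩ := exists_odd (u := u)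
  obtain ⟨b, hb⟩ := exists_ne p.1
  refine ⟨Perm.prodExtendRight b τ, ?_, ?_, ?_⟩
  · refine ⟨0, fun b' => if b' = b then a else 1, fun b' => if b' = b then c else 0, fun b' x => ?_⟩
    by_cases h : b' = b
    · subst h
      rw [Perm.prodExtendRight_apply_eq, hτ]
      simp
    · rw [Perm.prodExtendRight_apply_ne _ h]
      simp [h]
  · obtain ⟨p1, p2⟩ := p
    exact Perm.prodExtendRight_apply_ne τ (Ne.symm hb) p2
  · rw [Perm.sign_prodExtendRight, hs]

end Pool.Agent.U93.T
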